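import Pool.Agent.N15.EQ.Flow
import Pool.Agent.Run7.h491.HP.Flow
import Pool.Agent.Run7.h619.AA.Defs

/-!
# Skew products whose fibre maps belong to a flow: definitions
-/

set_option autoImplicit false
set_option linter.unusedSectionVars false

open Filter Set Topology MeasureTheory
open scoped Manifold ContDiff

namespace Run7.h491.FS

open Pool.Agent.H718R2.G
open Pool.Agent.N15.EQ (FlowOn omegaF FiniteAttractorsF)
open Pool.Agent.H728R2.FA (omegaLim FiniteAttractors)
open Run7.h491.HP (IsCrFlow)
open Run7.h619.AA (PDiff)

section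

variable {M B N : Type*} [TopologicalSpace B]

/-- the reversed flow -/
def rev (φ : ℝ → M → M) (t : ℝ) : M → M := φ (-t)

/-- Finitely many physical measures: the `m j` are ergodic probability measures of the map `h`, and for
each continuous function `c`, almost every point `y` (with respect to `μB`) satisfies for some `j`:
`ω(y)` is contained in the support of `m j`, and the averages of `c` along the forward orbit of `y`
converge to the integral of `c` with respect to `m j`. -/
structure IsPhysical [MeasurableSpace B] (μB : Measure B) (h : B → B) {p : ℕ}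
    (m : Fin p → Measure B) : Prop where
  prob : ∀ j, IsProbabilityMeasure (m j)
  erg : ∀ j, Ergodic h (m j)
  basin : ∀ c : B → ℝ, Continuous c → ∀ᵐ y ∂μB, ∃ j, omegaLim h y ⊆ (m j).support ∧
    Tendsto (fun n : ℕ => (n : ℝ)⁻¹ * ∑ i ∈ Finset.range n, c (h^[i] y)) atTop
      (𝓝 (∫ z, c z ∂(m j)))

/-- Finitely many physical measures for a flow `g`: the `m j` are invariant under the flow and ergodic for
the map `g τ`, where `τ > 0`, and for each continuous function `c`, almost every point `y` satisfies for
some `j`: the `ω`-limit set of `y` under the flow is contained in the support of `m j`, and the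
averages of `c` along the orbit of `y` under the map `g τ` converge to the integral of `c` with
respect to `m j`. -/
structure IsPhysicalF [MeasurableSpace B] (μB : Measure B) (g : ℝ → B → B) (τ : ℝ) {p : ℕ}
    (m : Fin p → Measure B) : Prop where
  pos : 0 < τ
  prob : ∀ j, IsProbabilityMeasure (m j)
  inv : ∀ j t, MeasurePreserving (g t) (m j) (m j)
  erg : ∀ j, Ergodic (g τ) (m j)
  basin : ∀ c : B → ℝ, Continuous c → ∀ᵐ y ∂μB, ∃ j, omegaF g y ⊆ (m j).support ∧
    Tendsto (fun n : ℕ => (n : ℝ)⁻¹ * ∑ i ∈ Finset.range n, c ((g τ)^[i] y)) atTop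
      (𝓝 (∫ z, c z ∂(m j)))

/-- The map `Θ` sends the null sets of the product measure to null sets of `μ`. -/
def ACProd [MeasurableSpace M] [MeasurableSpace B] [MeasurableSpace N] (Θ : M × B → N)
    (μM : Measure M) (μB : Measure B) (μ : Measure N) : Prop :=
  ∀ S : Set (M × B), (μM.prod μB) S = 0 → μ (Θ '' S) = 0

/-- The flow `φ` has finitely many attractors which cover the space if some of the numbers `a j` are
positive, and so does the reversed flow if some of them are negative. -/
def FinSigns [TopologicalSpace M] [MeasurableSpace M] (μM : Measure M) (φ : ℝ → M → M) {p : ℕ}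
    (a : Fin p → ℝ) : Prop :=
  ((∃ j, 0 < a j) → FiniteAttractorsF μM φ) ∧ ((∃ j, a j < 0) → FiniteAttractorsF μM (rev φ))

/-- Both the flow `φ` and the reversed flow have finitely many attractors which cover the space, or the
numbers `a j` are `≥ 0` and `φ` has this property, or they are `≤ 0` and the reversed flow has it. -/
def FinSigns' [TopologicalSpace M] [MeasurableSpace M] (μM : Measure M) (φ : ℝ → M → M) {p : ℕ}
    (a : Fin p → ℝ) : Prop :=
  (FiniteAttractorsF μM φ ∧ FiniteAttractorsF μM (rev φ)) ∨
    ((∀ j, 0 ≤ a j) ∧ FiniteAttractorsF μM φ) ∨ ((∀ j, a j ≤ 0) ∧ FiniteAttractorsF μM (rev φ))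

/-- The flow `φ` is gradient-like with respect to the continuous function `f`: it has finitely many
rest points, and `f` increases strictly along the other orbits. -/
structure GradLike [TopologicalSpace M] (φ : ℝ → M → M) (f : M → ℝ) : Prop where
  cont : Continuous f
  incr : ∀ x, (∀ t, φ t x = x) ∨ ∀ t : ℝ, 0 < t → f x < f (φ t x)
  fin : {x | ∀ t, φ t x = x}.Finite

/-- `C` is a continuous cocycle over the flow `g` -/
structure IsCocycle (g : ℝ → B → B) (C : ℝ → B → ℝ) : Prop where
  cont : Continuous fun q : ℝ × B => C q.1 q.2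
  add : ∀ s t y, C (s + t) y = C s (g t y) + C t y

end

section

variable {k b n : ℕ} {M B N : Type*} [TopologicalSpace M]
  [ChartedSpace (V k) M] [TopologicalSpace B] [ChartedSpace (V b) B] [TopologicalSpace N]
  [ChartedSpace (V n) N] {r : ℕ∞}

/-- `F` is, in the coordinates `Θ : M × B → N`, the skew product `(x, y) ↦ (φ_(c(y))(x), h(y))`, with a
`C^r` flow `φ` on `M`, a diffeomorphism `h` of `B` and a continuous function `c`. -/
structure IsFlowSkew (Θ : PDiff k b n M B N) (φ : ℝ → M → M) (h : DiffM b B r) (c : B → ℝ)
    (F : DiffM n N r) : Prop where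
  flow : IsCrFlow k M r φ
  cont : Continuous c
  map : ∀ x y, F (Θ.pt x y) = Θ.pt (φ (c y) x) (h y)

/-- `F` is, in the coordinates `Θ`, a skew product `(x, y) ↦ (φ_(c(y))(x), h(y))` over a
diffeomorphism `h` with finitely many physical measures `m j`, where `φ` and the integrals of `c`
satisfy `FinSigns'`. -/
def IsGoodSkew [MeasurableSpace M] [MeasurableSpace B] (Θ : PDiff k b n M B N) (μM : Measure M)
    (μB : Measure B) (F : DiffM n N r) : Prop :=
  ∃ (φ : ℝ → M → M) (h : DiffM b B r) (c : B → ℝ) (p : ℕ) (m : Fin p → Measure B),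
    IsFlowSkew Θ φ h c F ∧ IsPhysical μB h m ∧ FinSigns' μM φ (fun j => ∫ y, c y ∂(m j))

end

end Run7.h491.FS
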