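import Pool.Agent.Run7.h491.FS.Trans
import Pool.Agent.Run7.h491.FS.Defs

/-!
# Skew products over ergodic maps whose fibre maps belong to a flow: attractors
-/

set_option autoImplicit false
set_option linter.unusedSectionVars false

open Filter Set Topology MeasureTheory TopologicalSpace

universe u v w

namespace Run7.h491.FS

open Pool.Agent.N15.EQ (FlowOn omegaF IsAttractorF FiniteAttractorsF)
open Pool.Agent.H728R2.FA (omegaLim IsAttractor FiniteAttractors)

/-- `E` is invariant and contains a point with a dense forward orbit -/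
def InvTr {X : Type*} [TopologicalSpace X] (f : X → X) (E : Set X) : Prop :=
  f '' E = E ∧ ∃ p ∈ E, E ⊆ closure (range fun n : ℕ => f^[n] p)

theorem fin_of_cover {X : Type*} [TopologicalSpace X] [MeasurableSpace X] (μ : Measure X)
    (f : X → X) {κ : Type*} [Finite κ] (Λ : κ → Set X) (hinv : ∀ i, InvTr f (Λ i))
    (hnull : μ {p | ∀ i, ¬ omegaLim f p ⊆ Λ i} = 0) : FiniteAttractors μ f := by
  classical
  have := Fintype.ofFinite κ
  let I := {i : κ // 0 < μ {p | omegaLim f p ⊆ Λ i}}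
  let e := (Fintype.equivFin I).symm
  refine ⟨Fintype.card I, fun j => Λ (e j).1, fun j => ⟨(hinv _).1, (hinv _).2, (e j).2⟩, ?_⟩
  have hsub : {p | ∀ j, ¬ omegaLim f p ⊆ Λ (e j).1} ⊆ {p | ∀ i, ¬ omegaLim f p ⊆ Λ i} ∪
      ⋃ i : {i : κ // ¬ 0 < μ {p | omegaLim f p ⊆ Λ i}}, {p | omegaLim f p ⊆ Λ i.1} := by
    intro p hp
    by_cases h1 : ∀ i, ¬ omegaLim f p ⊆ Λ i
    · exact Or.inl h1
    · push Not at h1
      obtain ⟨i, hi⟩ := h1
      right
      refine mem_iUnion.2 ⟨⟨i, fun hpos => ?_⟩, hi⟩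
      apply hp (e.symm ⟨i, hpos⟩)
      rw [e.apply_symm_apply]
      exact hi
  refine measure_mono_null hsub (measure_union_null hnull (measure_iUnion_null fun i => ?_))
  exact nonpos_iff_eq_zero.1 (not_lt.1 i.2)

theorem finF_of_cover {X : Type u} [TopologicalSpace X] [MeasurableSpace X] (μ : Measure X)
    (f : ℝ → X → X) {κ : Type*} [Finite κ] (Λ : κ → Set X) (hinv : ∀ i t, f t '' Λ i = Λ i)
    (htr : ∀ i, ∃ x ∈ Λ i, Λ i ⊆ closure {y | ∃ t : ℝ, 0 ≤ t ∧ y = f t x})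
    (hnull : μ {p | ∀ i, ¬ omegaF f p ⊆ Λ i} = 0) : FiniteAttractorsF μ f := by
  classical
  have := Fintype.ofFinite κ
  let I := {i : κ // 0 < μ {p | omegaF f p ⊆ Λ i}}
  let e := (Fintype.equivFin I).symm
  refine ⟨Fintype.card I, fun j => Λ (e j).1, fun j => ⟨hinv _, htr _, (e j).2⟩, ?_⟩
  have hsub : {p | ∀ j, ¬ omegaF f p ⊆ Λ (e j).1} ⊆ {p | ∀ i, ¬ omegaF f p ⊆ Λ i} ∪
      ⋃ i : {i : κ // ¬ 0 < μ {p | omegaF f p ⊆ Λ i}}, {p | omegaF f p ⊆ Λ i.1} := by
    intro p hp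
    by_cases h1 : ∀ i, ¬ omegaF f p ⊆ Λ i
    · exact Or.inl h1
    · push Not at h1
      obtain ⟨i, hi⟩ := h1
      right
      refine mem_iUnion.2 ⟨⟨i, fun hpos => ?_⟩, hi⟩
      apply hp (e.symm ⟨i, hpos⟩)
      rw [e.apply_symm_apply]
      exact hi
  refine measure_mono_null hsub (measure_union_null hnull (measure_iUnion_null fun i => ?_))
  exact nonpos_iff_eq_zero.1 (not_lt.1 i.2)

/-- the support of an invariant measure is invariant -/
theorem support_inv {B : Type u} [TopologicalSpace B] [MeasurableSpace B] [BorelSpace B]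
    {m : Measure B} {h hi : B → B} (hh : Continuous h) (hhi : Continuous hi)
    (hl : ∀ y, hi (h y) = y) (hr : ∀ y, h (hi y) = y) (H : MeasurePreserving h m m) :
    h '' m.support = m.support := by
  apply Subset.antisymm
  · rintro _ ⟨y, hy, rfl⟩
    rw [Measure.mem_support_iff_forall] at hy ⊢
    intro U hU
    have h1 := hy _ (hh.continuousAt.preimage_mem_nhds (interior_mem_nhds.2 hU))
    rw [H.measure_preimage isOpen_interior.measurableSet.nullMeasurableSet] at h1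
    exact h1.trans_le (measure_mono interior_subset)
  · intro y hy
    refine ⟨hi y, ?_, hr y⟩
    rw [Measure.mem_support_iff_forall] at hy ⊢
    intro U hU
    have h2 : hi ⁻¹' interior U ∈ 𝓝 y := hhi.continuousAt.preimage_mem_nhds (interior_mem_nhds.2 hU)
    have h1 := hy _ h2
    have h3 : m (h ⁻¹' (hi ⁻¹' interior U)) = m (hi ⁻¹' interior U) :=
      H.measure_preimage (isOpen_interior.preimage hhi).measurableSet.nullMeasurableSet
    have h4 : h ⁻¹' (hi ⁻¹' interior U) = interior U := by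
      ext z
      simp [hl]
    rw [← h3, h4] at h1
    exact h1.trans_le (measure_mono interior_subset)

variable {M : Type v} [TopologicalSpace M] [T2Space M] [CompactSpace M] [SecondCountableTopology M]
  {B : Type u} [TopologicalSpace B] [T2Space B] [CompactSpace B] [SecondCountableTopology B]
  [MeasurableSpace B] [BorelSpace B]
  {m : Measure B} {h : B → B} {c : B → ℝ}
  {φ : ℝ → M → M}

theorem rev_flow (hφ : FlowOn M φ) : FlowOn M (rev φ) where
  cont := hφ.cont.comp (by fun_prop : Continuous fun q : ℝ × M => ((-q.1, q.2) : ℝ × M))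
  zero y := by
    unfold rev
    rw [neg_zero, hφ.zero]
  add s t y := by
    unfold rev
    rw [neg_add, hφ.add]

/-- `L` is closed, invariant and transitive for the flow -/
structure Att (φ : ℝ → M → M) (L : Set M) : Prop where
  closed : IsClosed L
  inv : ∀ t, ∀ y ∈ L, φ t y ∈ L
  tr : ∃ x ∈ L, Tails φ L x

/-- the closures of the attractors of a flow -/
theorem closures (hφ : FlowOn M φ) {Λ : Set M} (hinv : ∀ t, φ t '' Λ = Λ) {x : M} (hx : x ∈ Λ)
    (htr : Λ ⊆ closure {y | ∃ t : ℝ, 0 ≤ t ∧ y = φ t x}) : Att φ (closure Λ) := by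
  have hc1 : ∀ t, Continuous (φ t) := fun t => hφ.cont.comp (continuous_const.prodMk continuous_id)
  refine ⟨isClosed_closure, fun t y hy => ?_, x, subset_closure hx,
    fun T => closure_minimal ?_ isClosed_closure⟩
  · have h1 : φ t y ∈ closure (φ t '' Λ) :=
      image_closure_subset_closure_image (hc1 t) (mem_image_of_mem _ hy)
    rwa [hinv] at h1
  · intro y hy
    rw [← hinv T] at hy
    obtain ⟨z, hz, rfl⟩ := hy
    have h1 : φ T z ∈ closure (φ T '' {y | ∃ t : ℝ, 0 ≤ t ∧ y = φ t x}) :=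
      image_closure_subset_closure_image (hc1 T) (mem_image_of_mem _ (htr hz))
    refine closure_mono ?_ h1
    rintro _ ⟨_, ⟨t, ht, rfl⟩, rfl⟩
    exact ⟨T + t, by linarith, by rw [hφ.add]⟩

theorem family (hφ : FlowOn M φ) [MeasurableSpace M] (μM : Measure M) :
    ∃ (q : ℕ) (L : Fin q → Set M), (∀ i, Att φ (L i)) ∧
      (FiniteAttractorsF μM φ → μM {x | ∀ i, ¬ omegaF φ x ⊆ L i} = 0) := by
  by_cases hfin : FiniteAttractorsF μM φ
  · obtain ⟨q, Λ, hΛ, hnull⟩ := hfin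
    refine ⟨q, fun i => closure (Λ i), fun i => ?_, fun _ => measure_mono_null ?_ hnull⟩
    · obtain ⟨hinv, ⟨x, hx, hxd⟩, -⟩ := hΛ i
      exact closures hφ hinv hx hxd
    · intro x hx i hi
      exact hx i (hi.trans subset_closure)
  · exact ⟨0, fun _ => ∅, fun i => i.elim0, fun h => absurd h hfin⟩

/-- the growth of the partial sums -/
theorem growth {a ε : ℝ} {y : B} (hy : Tendsto (fun n : ℕ => (n : ℝ)⁻¹ * Sm h c n y) atTop (𝓝 a))
    (hε : 0 < a + ε) : Tendsto (fun n : ℕ => Sm h c n y + n * ε) atTop atTop := by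
  have h1 : Tendsto (fun n : ℕ => (n : ℝ)⁻¹ * Sm h c n y + ε) atTop (𝓝 (a + ε)) :=
    hy.add_const ε
  have h2 : Tendsto (fun n : ℕ => ((n : ℝ)⁻¹ * Sm h c n y + ε) * (n : ℝ)) atTop atTop :=
    h1.pos_mul_atTop hε tendsto_natCast_atTop_atTop
  refine h2.congr' ?_
  filter_upwards [eventually_ge_atTop 1] with n hn
  have hn0 : (n : ℝ) ≠ 0 := by
    have : (0 : ℝ) < n := by exact_mod_cast hn
    exact this.ne'
  field_simp

theorem sk_rev (ε : ℝ) : sk (rev φ) h (-c) (-ε) = sk φ h c ε := by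
  funext z
  unfold sk rev
  simp only [Pi.neg_apply]
  congr 2
  ring

theorem Sm_neg (n : ℕ) (y : B) : Sm h (-c) n y = -Sm h c n y := by
  unfold Sm
  simp

theorem residual_neg {P : ℝ → Prop} (h : ∀ᶠ ε in residual ℝ, P ε) : ∀ᶠ ε in residual ℝ, P (-ε) := by
  have h1 : Tendsto (fun ε : ℝ => -ε) (residual ℝ) (residual ℝ) :=
    tendsto_residual_of_isOpenMap continuous_neg (Homeomorph.neg ℝ).isOpenMap
  exact h1.eventually h

theorem residual_ne (a : ℝ) : ∀ᶠ ε in residual ℝ, a + ε ≠ 0 := by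
  have h1 : ({-a}ᶜ : Set ℝ) ∈ residual ℝ :=
    residual_of_dense_open isOpen_compl_singleton (dense_compl_singleton _)
  filter_upwards [h1] with ε hε h2
  exact hε (by rw [mem_singleton_iff]; linarith)

/-- a surjective base map -/
theorem fwd [IsProbabilityMeasure m] (H : Ergodic h m) (hh : Continuous h) (hc : Continuous c)
    (hS : h '' m.support = m.support) (hφ : FlowOn M φ) {L : Set M} (hL : Att φ L) :
    ∀ᶠ ε in residual ℝ, 0 < (∫ y, c y ∂m) + ε → InvTr (sk φ h c ε) (L ×ˢ m.support) := by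
  obtain ⟨x₀, hx₀, hT⟩ := hL.tr
  filter_upwards [residual_trans H hh hc hφ hL.closed hx₀ hL.inv hT] with ε hε hpos
  refine ⟨?_, hε hpos⟩
  apply Subset.antisymm
  · rintro _ ⟨p, hp, rfl⟩
    refine ⟨hL.inv _ _ hp.1, ?_⟩
    rw [← hS]
    exact mem_image_of_mem _ hp.2
  · rintro p ⟨hp1, hp2⟩
    rw [← hS] at hp2
    obtain ⟨y, hy, hy2⟩ := hp2
    refine ⟨(φ (-(c y + ε)) p.1, y), ⟨hL.inv _ _ hp1, hy⟩, ?_⟩
    unfold sk
    simp only
    rw [← hφ.add, add_neg_cancel, hφ.zero, hy2]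

theorem bwd [IsProbabilityMeasure m] (H : Ergodic h m) (hh : Continuous h) (hc : Continuous c)
    (hS : h '' m.support = m.support) (hφ : FlowOn M φ) {L : Set M} (hL : Att (rev φ) L) :
    ∀ᶠ ε in residual ℝ, (∫ y, c y ∂m) + ε < 0 → InvTr (sk φ h c ε) (L ×ˢ m.support) := by
  have h1 := residual_neg (fwd H hh hc.neg hS (rev_flow hφ) hL)
  filter_upwards [h1] with ε hε hneg
  have h2 : 0 < (∫ y, (-c) y ∂m) + -ε := by
    have : ∫ y, (-c) y ∂m = -∫ y, c y ∂m := integral_neg (f := c)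
    rw [this]
    linarith
  have h3 := hε h2
  rwa [sk_rev] at h3

variable {N : Type w} [TopologicalSpace N]

theorem conj_invtr (Θ : M × B ≃ₜ N) {f : M × B → M × B} {G : N → N}
    (hG : ∀ p, G (Θ p) = Θ (f p)) {E : Set (M × B)} (hE : InvTr f E) : InvTr G (Θ '' E) := by
  obtain ⟨h1, p, hp, hpd⟩ := hE
  constructor
  · apply Subset.antisymm
    · rintro _ ⟨_, ⟨q, hq, rfl⟩, rfl⟩
      rw [hG]
      rw [← h1]
      exact mem_image_of_mem _ (mem_image_of_mem _ hq)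
    · rintro _ ⟨q, hq, rfl⟩
      rw [← h1] at hq
      obtain ⟨z, hz, rfl⟩ := hq
      exact ⟨Θ z, mem_image_of_mem _ hz, hG z⟩
  · refine ⟨Θ p, mem_image_of_mem _ hp, ?_⟩
    have h2 : Θ '' E ⊆ Θ '' closure (range fun n : ℕ => f^[n] p) := image_mono hpd
    refine h2.trans ((image_closure_subset_closure_image Θ.continuous).trans (closure_mono ?_))
    rintro _ ⟨_, ⟨n, rfl⟩, rfl⟩
    refine ⟨n, ?_⟩
    show G^[n] (Θ p) = Θ (f^[n] p)
    induction n with
    | zero => rfl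
    | succ i ih => rw [Function.iterate_succ_apply', ih, hG, Function.iterate_succ_apply']

theorem omega_sub (hφ : FlowOn M φ) (Θ : M × B ≃ₜ N) {ε : ℝ} {G : N → N}
    (hG : ∀ p, G (Θ p) = Θ (sk φ h c ε p)) {x : M} {y : B}
    (hy : Tendsto (fun n : ℕ => Sm h c n y + n * ε) atTop atTop) :
    omegaLim G (Θ (x, y)) ⊆ Θ '' (omegaF φ x ×ˢ omegaLim h y) := by
  intro q hq
  obtain ⟨⟨v, v'⟩, rfl⟩ := Θ.surjective q
  have h2 : ∀ i : ℕ, G^[i] (Θ (x, y)) = Θ ((sk φ h c ε)^[i] (x, y)) := by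
    intro i
    induction i with
    | zero => rfl
    | succ i ih => rw [Function.iterate_succ_apply', ih, hG, Function.iterate_succ_apply']
  refine mem_image_of_mem _ ⟨?_, ?_⟩
  · intro U hU T
    obtain ⟨n₀, hn₀⟩ := eventually_atTop.1 (hy.eventually_ge_atTop T)
    have h1 : Θ '' (U ×ˢ univ) ∈ 𝓝 (Θ (v, v')) :=
      Θ.isOpenMap.image_mem_nhds (prod_mem_nhds hU univ_mem)
    obtain ⟨n, hn, hn2⟩ := hq _ h1 n₀
    rw [h2, sk_iter hφ.zero hφ.add] at hn2
    obtain ⟨z, hz, hz2⟩ := hn2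
    have h3 := Θ.injective hz2
    rw [h3] at hz
    exact ⟨_, hn₀ n hn, hz.1⟩
  · intro U hU n₀
    have h1 : Θ '' (univ ×ˢ U) ∈ 𝓝 (Θ (v, v')) :=
      Θ.isOpenMap.image_mem_nhds (prod_mem_nhds univ_mem hU)
    obtain ⟨n, hn, hn2⟩ := hq _ h1 n₀
    rw [h2, sk_iter hφ.zero hφ.add] at hn2
    obtain ⟨z, hz, hz2⟩ := hn2
    have h3 := Θ.injective hz2
    rw [h3] at hz
    exact ⟨n, hn, hz.2⟩

theorem null_cover [MeasurableSpace M] {μM : Measure M} [SFinite μM] {μB : Measure B} [SFinite μB]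
    [MeasurableSpace N] {μ : Measure N} {Θ : M × B → N} (hΘ : Function.Surjective Θ)
    (hμ : ACProd Θ μM μB μ)
    {P : M → Prop} {Q : B → Prop} (hP : μM {x | ¬ P x} = 0) (hQ : ∀ᵐ y ∂μB, Q y) {R : N → Prop}
    (hR : ∀ x y, P x → Q y → R (Θ (x, y))) : μ {z | ¬ R z} = 0 := by
  have h1 : (μM.prod μB) ({x | ¬ P x} ×ˢ univ ∪ univ ×ˢ {y | ¬ Q y}) = 0 := by
    refine measure_union_null ?_ ?_
    · rw [Measure.prod_prod, hP, zero_mul]
    · rw [Measure.prod_prod, ae_iff.1 hQ, mul_zero]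
  refine measure_mono_null ?_ (hμ _ h1)
  intro z hz
  obtain ⟨⟨x, y⟩, rfl⟩ := hΘ z
  refine mem_image_of_mem _ ?_
  by_cases hx : P x
  · by_cases hy : Q y
    · exact absurd (hR x y hx hy) hz
    · exact Or.inr ⟨mem_univ _, hy⟩
  · exact Or.inl ⟨hx, mem_univ _⟩

theorem finite_gen [MeasurableSpace M] (μM : Measure M) [SFinite μM] (μB : Measure B) [SFinite μB]
    {p : ℕ} {m : Fin p → Measure B} (H : IsPhysical μB h m) {hi : B → B} (hh : Continuous h)
    (hhi : Continuous hi) (hl : ∀ y, hi (h y) = y) (hr : ∀ y, h (hi y) = y)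
    (hc : Continuous c) (hφ : FlowOn M φ) (Θ : M × B ≃ₜ N) [MeasurableSpace N] (μ : Measure N)
    (hμ : ACProd Θ μM μB μ) :
    ∀ᶠ ε in residual ℝ, FinSigns μM φ (fun j => (∫ y, c y ∂(m j)) + ε) →
      FiniteAttractors μ (fun z => Θ (sk φ h c ε (Θ.symm z))) := by
  have := H.prob
  have hS : ∀ j, h '' (m j).support = (m j).support := fun j =>
    support_inv hh hhi hl hr (H.erg j).toMeasurePreserving
  obtain ⟨q, L, hL, hLn⟩ := family hφ μM
  obtain ⟨q', L', hL', hLn'⟩ := family (rev_flow hφ) μM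
  have h1 : ∀ᶠ ε in residual ℝ, ∀ j, ∀ i, 0 < (∫ y, c y ∂(m j)) + ε →
      InvTr (sk φ h c ε) (L i ×ˢ (m j).support) :=
    eventually_all.2 fun j => eventually_all.2 fun i => fwd (H.erg j) hh hc (hS j) hφ (hL i)
  have h2 : ∀ᶠ ε in residual ℝ, ∀ j, ∀ i, (∫ y, c y ∂(m j)) + ε < 0 →
      InvTr (sk φ h c ε) (L' i ×ˢ (m j).support) :=
    eventually_all.2 fun j => eventually_all.2 fun i => bwd (H.erg j) hh hc (hS j) hφ (hL' i)
  have h3 : ∀ᶠ ε in residual ℝ, ∀ j, (∫ y, c y ∂(m j)) + ε ≠ 0 :=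
    eventually_all.2 fun j => residual_ne _
  filter_upwards [h1, h2, h3] with ε hε1 hε2 hε3 hfin
  obtain ⟨G, hGd⟩ : ∃ G : N → N, G = fun z => Θ (sk φ h c ε (Θ.symm z)) := ⟨_, rfl⟩
  rw [← hGd]
  have hG : ∀ p, G (Θ p) = Θ (sk φ h c ε p) := by
    intro p
    rw [hGd]
    show Θ (sk φ h c ε (Θ.symm (Θ p))) = _
    rw [Θ.symm_apply_apply]
  let Y : (Fin p × Fin q) ⊕ (Fin p × Fin q') → Set (M × B) := fun s =>
    Sum.elim (fun s => L s.2 ×ˢ (m s.1).support) (fun s => L' s.2 ×ˢ (m s.1).support) s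
  let κ := {s : (Fin p × Fin q) ⊕ (Fin p × Fin q') // InvTr (sk φ h c ε) (Y s)}
  refine fin_of_cover μ G (κ := κ) (fun s => Θ '' (Y s.1)) (fun s => conj_invtr Θ hG s.2) ?_
  have h4 := null_cover (P := fun x => ((∃ j, 0 < (∫ y, c y ∂(m j)) + ε) → ∃ i, omegaF φ x ⊆ L i) ∧
      ((∃ j, (∫ y, c y ∂(m j)) + ε < 0) → ∃ i, omegaF (rev φ) x ⊆ L' i))
    (Q := fun y => ∃ j, omegaLim h y ⊆ (m j).support ∧
      Tendsto (fun n : ℕ => (n : ℝ)⁻¹ * Sm h c n y) atTop (𝓝 (∫ z, c z ∂(m j))))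
    (R := fun z => ∃ s : κ, omegaLim G z ⊆ Θ '' (Y s.1)) Θ.surjective hμ ?_ (H.basin c hc) ?_
  · simpa only [not_exists] using h4
  · have h5 : μM {x | ¬ ((∃ j, 0 < (∫ y, c y ∂(m j)) + ε) → ∃ i, omegaF φ x ⊆ L i)} = 0 := by
      by_cases hj : ∃ j, 0 < (∫ y, c y ∂(m j)) + ε
      · refine measure_mono_null ?_ (hLn (hfin.1 hj))
        intro x hx i hi
        exact hx fun _ => ⟨i, hi⟩
      · refine measure_mono_null ?_ measure_empty
        intro x hx
        exact hx fun hj' => absurd hj' hj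
    have h6 : μM {x | ¬ ((∃ j, (∫ y, c y ∂(m j)) + ε < 0) → ∃ i, omegaF (rev φ) x ⊆ L' i)} = 0 := by
      by_cases hj : ∃ j, (∫ y, c y ∂(m j)) + ε < 0
      · refine measure_mono_null ?_ (hLn' (hfin.2 hj))
        intro x hx i hi
        exact hx fun _ => ⟨i, hi⟩
      · refine measure_mono_null ?_ measure_empty
        intro x hx
        exact hx fun hj' => absurd hj' hj
    refine measure_mono_null ?_ (measure_union_null h5 h6)
    intro x hx
    by_contra hcon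
    apply hx
    rw [mem_union, not_or] at hcon
    exact ⟨not_not.1 hcon.1, not_not.1 hcon.2⟩
  · rintro x y ⟨hx1, hx2⟩ ⟨j, hj1, hj2⟩
    rcases (hε3 j).lt_or_gt with hneg | hpos
    · obtain ⟨i, hi⟩ := hx2 ⟨j, hneg⟩
      have h7 : Tendsto (fun n : ℕ => (n : ℝ)⁻¹ * Sm h (-c) n y) atTop (𝓝 (-∫ z, c z ∂(m j))) := by
        simp only [Sm_neg, mul_neg]
        exact hj2.neg
      have h8 := growth (ε := -ε) h7 (by linarith)
      have h9 := omega_sub (rev_flow hφ) Θ (G := G) (by rw [sk_rev]; exact hG) (x := x) h8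
      exact ⟨⟨Sum.inr (j, i), hε2 j i hneg⟩, h9.trans (image_mono (prod_mono hi hj1))⟩
    · obtain ⟨i, hi⟩ := hx1 ⟨j, hpos⟩
      have h8 := growth hj2 hpos
      have h9 := omega_sub hφ Θ hG (x := x) h8
      exact ⟨⟨Sum.inl (j, i), hε1 j i hpos⟩, h9.trans (image_mono (prod_mono hi hj1))⟩

end Run7.h491.FS
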