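import Pool.Agent.H728R2.FA.S.BIRK

/-!
# Skew products over ergodic maps whose fibre maps belong to a flow: transitivity
-/

set_option autoImplicit false
set_option linter.unusedSectionVars false

open Filter Set Topology MeasureTheory

universe u v

namespace Run7.h491.FS

/-- partial sums of `c` along the orbit -/
def Sm {B : Type*} (h : B → B) (c : B → ℝ) (n : ℕ) (y : B) : ℝ := ∑ i ∈ Finset.range n, c (h^[i] y)

/-- the skew product -/
def sk {M B : Type*} (φ : ℝ → M → M) (h : B → B) (c : B → ℝ) (ε : ℝ) (p : M × B) : M × B :=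
  (φ (c p.2 + ε) p.1, h p.2)

theorem sk_iter {M B : Type*} {φ : ℝ → M → M} (h0 : ∀ x, φ 0 x = x)
    (hadd : ∀ s t x, φ (s + t) x = φ s (φ t x)) (h : B → B) (c : B → ℝ) (ε : ℝ) (n : ℕ) (x : M)
    (y : B) : (sk φ h c ε)^[n] (x, y) = (φ (Sm h c n y + n * ε) x, h^[n] y) := by
  induction n with
  | zero => simp [Sm, h0]
  | succ n ih =>
    rw [Function.iterate_succ_apply', ih, Function.iterate_succ_apply']
    unfold sk
    simp only
    congr 1
    rw [← hadd]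
    congr 1
    unfold Sm
    rw [Finset.sum_range_succ]
    push_cast
    ring

/-- the indicator function -/
noncomputable def ind {B : Type*} (V : Set B) (y : B) : ℝ := V.indicator (fun _ => 1) y

/-- visits to a set with a positive frequency -/
theorem visits {B : Type*} {h : B → B} {V : Set B} {y : B} {κ : ℝ} (hκ : 0 < κ)
    (hy : Tendsto (fun n : ℕ => (n : ℝ)⁻¹ * Sm h (ind V) n y) atTop (𝓝 κ)) {p q : ℝ} (hp : 0 < p)
    (hpq : p < q) : ∀ᶠ t : ℝ in atTop, ∃ n : ℕ, p * t ≤ n ∧ (n : ℝ) ≤ q * t ∧ h^[n] y ∈ V := by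
  obtain ⟨δ, hδ⟩ : ∃ δ : ℝ, δ = κ * (q - p) / (2 * (q + p)) := ⟨_, rfl⟩
  have hqp : 0 < q - p := by linarith
  have hqp' : 0 < q + p := by linarith
  have hδ0 : 0 < δ := by rw [hδ]; positivity
  have hδ1 : δ * (q + p) = κ * (q - p) / 2 := by rw [hδ]; field_simp
  have hδκ : δ < κ := by
    by_contra hcon
    push Not at hcon
    have h1 : κ * (q + p) ≤ δ * (q + p) := mul_le_mul_of_nonneg_right hcon hqp'.le
    rw [hδ1] at h1
    nlinarith
  have h1 : ∀ᶠ n : ℕ in atTop, |(n : ℝ)⁻¹ * Sm h (ind V) n y - κ| < δ := by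
    have := (Metric.tendsto_nhds.1 hy) δ hδ0
    simpa only [Real.dist_eq] using this
  obtain ⟨n₀, hn₀⟩ := eventually_atTop.1 (h1.and (eventually_ge_atTop 1))
  have h2 : ∀ n ≥ n₀, (κ - δ) * n ≤ Sm h (ind V) n y ∧ Sm h (ind V) n y ≤ (κ + δ) * n := by
    intro n hn
    obtain ⟨h3, h4⟩ := hn₀ n hn
    have hn0 : (0 : ℝ) < n := by exact_mod_cast h4
    have e : Sm h (ind V) n y = n * ((n : ℝ)⁻¹ * Sm h (ind V) n y) := by field_simp
    obtain ⟨h5, h6⟩ := abs_lt.1 h3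
    rw [e]
    constructor
    · rw [mul_comm]
      exact mul_le_mul_of_nonneg_left (by linarith) hn0.le
    · rw [mul_comm (κ + δ)]
      exact mul_le_mul_of_nonneg_left (by linarith) hn0.le
  filter_upwards [eventually_gt_atTop (2 * (κ + δ) / (κ * (q - p))),
    eventually_ge_atTop ((n₀ : ℝ) / p), eventually_ge_atTop (0 : ℝ)] with t ht ht2 ht0
  by_contra hcon
  push Not at hcon
  obtain ⟨n1, hn1⟩ : ∃ n1 : ℕ, n1 = ⌈p * t⌉₊ := ⟨_, rfl⟩
  obtain ⟨n2, hn2⟩ : ∃ n2 : ℕ, n2 = ⌊q * t⌋₊ + 1 := ⟨_, rfl⟩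
  have a1 : p * t ≤ n1 := by rw [hn1]; exact Nat.le_ceil _
  have a2 : (n1 : ℝ) < p * t + 1 := by rw [hn1]; exact Nat.ceil_lt_add_one (by positivity)
  have a3 : q * t < n2 := by rw [hn2]; push_cast; exact Nat.lt_floor_add_one _
  have a4 : n1 ≤ n2 := by
    rw [hn1, Nat.ceil_le]
    have : p * t ≤ q * t := mul_le_mul_of_nonneg_right hpq.le ht0
    linarith
  have a5 : n₀ ≤ n1 := by
    have h3 : (n₀ : ℝ) ≤ p * t := by
      rw [div_le_iff₀ hp] at ht2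
      linarith
    exact_mod_cast h3.trans a1
  have a6 : Sm h (ind V) n1 y = Sm h (ind V) n2 y := by
    unfold Sm
    refine Finset.sum_subset (Finset.range_mono a4) fun i hi hi2 => ?_
    rw [Finset.mem_range] at hi
    rw [Finset.mem_range, not_lt] at hi2
    unfold ind
    rw [indicator_of_notMem]
    refine hcon i (a1.trans (by exact_mod_cast hi2)) ?_
    rw [hn2, Nat.lt_succ_iff] at hi
    exact (Nat.le_floor_iff (mul_nonneg (hp.trans hpq).le ht0)).1 hi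
  have a7 := (h2 n1 a5).2
  have a8 := (h2 n2 (a5.trans a4)).1
  rw [a6] at a7
  have a9 : (κ - δ) * (q * t) ≤ (κ - δ) * n2 :=
    mul_le_mul_of_nonneg_left a3.le (by linarith)
  have a10 : (κ + δ) * n1 ≤ (κ + δ) * (p * t + 1) :=
    mul_le_mul_of_nonneg_left a2.le (by linarith)
  have a11 : 2 * (κ + δ) < t * (κ * (q - p)) := by
    rwa [div_lt_iff₀ (by positivity)] at ht
  have a12 : (κ - δ) * (q * t) - (κ + δ) * (p * t + 1) =
      t * (κ * (q - p)) - t * (δ * (q + p)) - (κ + δ) := by ring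
  rw [hδ1] at a12
  nlinarith

section

variable {B : Type u} [TopologicalSpace B] [MeasurableSpace B] [BorelSpace B] [CompactSpace B]
  {m : Measure B} [IsProbabilityMeasure m] {h : B → B} {c : B → ℝ}

theorem birk (H : Ergodic h m) (hc : Continuous c) :
    ∀ᵐ y ∂m, Tendsto (fun n : ℕ => (n : ℝ)⁻¹ * Sm h c n y) atTop (𝓝 (∫ y, c y ∂m)) := by
  have hb : ∃ C, ∀ x, |c x| ≤ C := by
    obtain ⟨C, hC⟩ := isCompact_univ.exists_bound_of_continuousOn (f := c) hc.continuousOn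
    exact ⟨C, fun x => hC x (mem_univ x)⟩
  exact Pool.Agent.H728R2.FA.birkhoff H c hc.measurable hb

theorem birk_ind (H : Ergodic h m) {V : Set B} (hV : IsOpen V) :
    ∀ᵐ y ∂m, Tendsto (fun n : ℕ => (n : ℝ)⁻¹ * Sm h (ind V) n y) atTop (𝓝 (m.real V)) := by
  have hb : ∃ C, ∀ x, |ind V x| ≤ C := by
    refine ⟨1, fun x => ?_⟩
    unfold ind
    by_cases hx : x ∈ V
    · simp [hx]
    · simp [hx]
  have hm : Measurable (ind V) := measurable_const.indicator hV.measurableSet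
  have h1 := Pool.Agent.H728R2.FA.birkhoff H (ind V) hm hb
  have h2 : ∫ y, ind V y ∂m = m.real V := by
    unfold ind
    rw [integral_indicator_const (1 : ℝ) hV.measurableSet]
    simp
  rw [h2] at h1
  exact h1

theorem exists_point (H : Ergodic h m) (hc : Continuous c) {U V S : Set B}
    (hV : IsOpen V) (hU0 : 0 < m U) (hS : S ∈ ae m) :
    ∃ y ∈ U ∩ S, Tendsto (fun n : ℕ => (n : ℝ)⁻¹ * Sm h c n y) atTop (𝓝 (∫ y, c y ∂m)) ∧
      Tendsto (fun n : ℕ => (n : ℝ)⁻¹ * Sm h (ind V) n y) atTop (𝓝 (m.real V)) := by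
  by_contra hcon
  have h1 : ∀ᵐ y ∂m, y ∉ U := by
    filter_upwards [birk H hc, birk_ind H hV, hS] with y h1 h2 h3 hyU
    exact hcon ⟨y, ⟨hyU, h3⟩, h1, h2⟩
  rw [ae_iff] at h1
  simp only [not_not] at h1
  exact hU0.ne' h1

end

section

variable {M : Type v} [TopologicalSpace M] {B : Type u} [TopologicalSpace B] [MeasurableSpace B]
  [BorelSpace B] [CompactSpace B]
  {m : Measure B} [IsProbabilityMeasure m] {h : B → B} {c : B → ℝ} {φ : ℝ → M → M}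

/-- Tails of the forward orbit of `x₀` are dense in `L`. -/
def Tails (φ : ℝ → M → M) (L : Set M) (x₀ : M) : Prop :=
  ∀ T : ℝ, L ⊆ closure {y | ∃ t : ℝ, T ≤ t ∧ y = φ t x₀}

theorem hit (H : Ergodic h m) (hc : Continuous c) (hadd : ∀ s t x, φ (s + t) x = φ s (φ t x))
    {L : Set M} {x₀ : M} (hx₀ : x₀ ∈ L) (hL : ∀ t, ∀ x ∈ L, φ t x ∈ L) (hT : Tails φ L x₀)
    {U V : Set M} (hU : IsOpen U) (hV : IsOpen V) (hUL : (U ∩ L).Nonempty) (hVL : (V ∩ L).Nonempty)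
    {U' V' S : Set B} (hV' : IsOpen V') (hU0 : 0 < m U') (hV0 : 0 < m V') (hS : S ∈ ae m)
    {α β : ℝ} (hαβ : α < β) (hα : 0 < (∫ y, c y ∂m) + α) :
    ∃ ε ∈ Ioo α β, ∃ n : ℕ, ∃ x ∈ U ∩ L, ∃ y ∈ U' ∩ S, φ (Sm h c n y + n * ε) x ∈ V ∧
      h^[n] y ∈ V' := by
  obtain ⟨a, ha⟩ : ∃ a, a = ∫ y, c y ∂m := ⟨_, rfl⟩
  rw [← ha] at hα
  obtain ⟨η, hη⟩ : ∃ η, η = (β - α) / 8 := ⟨_, rfl⟩
  have hη0 : 0 < η := by rw [hη]; linarith
  obtain ⟨ε₁, hε₁⟩ : ∃ ε₁, ε₁ = α + 2 * η := ⟨_, rfl⟩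
  obtain ⟨ε₂, hε₂⟩ : ∃ ε₂, ε₂ = β - 2 * η := ⟨_, rfl⟩
  have h12 : ε₁ < ε₂ := by rw [hε₁, hε₂, hη]; linarith
  have hd1 : 0 < a + ε₁ := by rw [hε₁]; linarith
  have hd2 : 0 < a + ε₂ := by linarith
  obtain ⟨y, hyU, hyc, hyV⟩ := exists_point H hc hV' hU0 hS
  rw [← ha] at hyc
  have hV0' : 0 < m.real V' := ENNReal.toReal_pos hV0.ne' (measure_ne_top m V')
  have h1 := visits hV0' hyV (p := (a + ε₂)⁻¹) (q := (a + ε₁)⁻¹) (inv_pos.2 hd2)
    ((inv_lt_inv₀ hd2 hd1).2 (by linarith))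
  obtain ⟨T₁, hT₁⟩ := eventually_atTop.1 h1
  have h2 : ∀ᶠ n : ℕ in atTop, |(n : ℝ)⁻¹ * Sm h c n y - a| < η := by
    have := (Metric.tendsto_nhds.1 hyc) η hη0
    simpa only [Real.dist_eq] using this
  obtain ⟨n₀, hn₀⟩ := eventually_atTop.1 (h2.and (eventually_ge_atTop 1))
  -- the starting point
  obtain ⟨u, huU, huL⟩ := hUL
  obtain ⟨_, hxU, s₀, -, rfl⟩ := mem_closure_iff.1 (hT 0 huL) U hU huU
  obtain ⟨v, hvV, hvL⟩ := hVL
  -- a large time
  obtain ⟨_, hyV2, t, ht, rfl⟩ :=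
    mem_closure_iff.1 (hT (s₀ + max T₁ ((n₀ : ℝ) * (a + ε₂))) hvL) V hV hvV
  obtain ⟨t', ht'⟩ : ∃ t', t' = t - s₀ := ⟨_, rfl⟩
  have hm := le_max_left T₁ ((n₀ : ℝ) * (a + ε₂))
  have hm' := le_max_right T₁ ((n₀ : ℝ) * (a + ε₂))
  obtain ⟨n, hn1, hn2, hn3⟩ := hT₁ t' (by linarith)
  have hn4 : (n₀ : ℝ) ≤ n := by
    have h3 : (n₀ : ℝ) * (a + ε₂) ≤ t' := by linarith
    rw [inv_mul_le_iff₀ hd2] at hn1
    have h4 : (a + ε₂) * n₀ ≤ (a + ε₂) * n := by linarith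
    exact le_of_mul_le_mul_left h4 hd2
  obtain ⟨h5, h6⟩ := hn₀ n (by exact_mod_cast hn4)
  have hnpos : (0 : ℝ) < n := by exact_mod_cast h6
  rw [inv_mul_le_iff₀ hd2] at hn1
  rw [le_inv_mul_iff₀ hd1] at hn2
  obtain ⟨ε, hε⟩ : ∃ ε : ℝ, ε = (t' - Sm h c n y) / n := ⟨_, rfl⟩
  have hεn : n * ε = t' - Sm h c n y := by
    rw [hε]
    field_simp
  have hS1 : Sm h c n y = n * ((n : ℝ)⁻¹ * Sm h c n y) := by field_simp
  obtain ⟨h7, h8⟩ := abs_lt.1 h5
  have h9 : n * (a - η) ≤ Sm h c n y := by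
    rw [hS1]
    exact mul_le_mul_of_nonneg_left (by linarith) hnpos.le
  have h10 : Sm h c n y ≤ n * (a + η) := by
    rw [hS1]
    exact mul_le_mul_of_nonneg_left (by linarith) hnpos.le
  refine ⟨ε, ⟨?_, ?_⟩, n, φ s₀ x₀, ⟨hxU, hL _ _ hx₀⟩, y, hyU, ?_, hn3⟩
  · have h11 : n * (α + η) ≤ n * ε := by
      rw [hεn]
      have : n * (α + η) = (a + ε₁) * n - n * (a + η) := by rw [hε₁]; ring
      linarith
    have := le_of_mul_le_mul_left h11 hnpos
    linarith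
  · have h11 : n * ε ≤ n * (β - η) := by
      rw [hεn]
      have : n * (β - η) = (a + ε₂) * n - n * (a - η) := by rw [hε₂]; ring
      linarith
    have := le_of_mul_le_mul_left h11 hnpos
    linarith
  · rw [← hadd]
    have e : Sm h c n y + n * ε + s₀ = t := by
      rw [hεn, ht']
      ring
    rw [e]
    exact hyV2

end

end Run7.h491.FS
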