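import Pool.Agent.Run7.h491.FS.Attr

/-!
# Skew product flows whose fibre maps belong to a flow
-/

set_option autoImplicit false
set_option linter.unusedSectionVars false

open Filter Set Topology MeasureTheory TopologicalSpace

universe u v w

namespace Run7.h491.FS

open Pool.Agent.N15.EQ (FlowOn omegaF IsAttractorF FiniteAttractorsF)
open Pool.Agent.H728R2.FA (omegaLim IsAttractor FiniteAttractors)

variable {M : Type v} [TopologicalSpace M] [T2Space M] [CompactSpace M] [SecondCountableTopology M]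
  {B : Type u} [TopologicalSpace B] [T2Space B] [CompactSpace B] [SecondCountableTopology B]
  [MeasurableSpace B] [BorelSpace B]
  {m : Measure B}
  {φ : ℝ → M → M} {N : Type w} [TopologicalSpace N]

/-- the skew product flow -/
def skF {M B : Type*} (φ : ℝ → M → M) (g : ℝ → B → B) (C : ℝ → B → ℝ) (ε t : ℝ) (p : M × B) : M × B :=
  (φ (C t p.2 + ε * t) p.1, g t p.2)

variable {g : ℝ → B → B} {C : ℝ → B → ℝ}

theorem IsCocycle.zero (hC : IsCocycle g C) (hg : FlowOn B g) (y : B) : C 0 y = 0 := by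
  have h1 := hC.add 0 0 y
  rw [add_zero, hg.zero] at h1
  linarith

theorem skF_flow (hφ : FlowOn M φ) (hg : FlowOn B g) (hC : IsCocycle g C) (ε : ℝ) :
    FlowOn (M × B) (skF φ g C ε) where
  cont := by
    have h1 : Continuous fun q : ℝ × M × B => C q.1 q.2.2 :=
      hC.cont.comp (by fun_prop : Continuous fun q : ℝ × M × B => ((q.1, q.2.2) : ℝ × B))
    have h2 : Continuous fun q : ℝ × M × B => ((C q.1 q.2.2 + ε * q.1, q.2.1) : ℝ × M) :=
      (h1.add (continuous_const.mul continuous_fst)).prodMk (continuous_fst.comp continuous_snd)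
    have h3 : Continuous fun q : ℝ × M × B => ((q.1, q.2.2) : ℝ × B) := by fun_prop
    exact (hφ.cont.comp h2).prodMk (hg.cont.comp h3)
  zero p := by
    unfold skF
    rw [hC.zero hg, mul_zero, add_zero, hφ.zero, hg.zero]
  add s t p := by
    unfold skF
    simp only
    rw [hC.add, ← hφ.add, hg.add]
    congr 2
    ring

theorem skF_tau (ε τ : ℝ) : skF φ g C ε τ = sk φ (g τ) (C τ) (ε * τ) := rfl

theorem skF_nat (hφ : FlowOn M φ) (hg : FlowOn B g) (hC : IsCocycle g C) (ε τ : ℝ) (n : ℕ)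
    (p : M × B) : skF φ g C ε (n * τ) p = (sk φ (g τ) (C τ) (ε * τ))^[n] p := by
  induction n with
  | zero => rw [Nat.cast_zero, zero_mul, (skF_flow hφ hg hC ε).zero]; rfl
  | succ n ih =>
    rw [Function.iterate_succ_apply', ← ih, ← skF_tau, ← (skF_flow hφ hg hC ε).add]
    congr 1
    push_cast
    ring

theorem C_nat (hg : FlowOn B g) (hC : IsCocycle g C) (τ : ℝ) (n : ℕ) (y : B) :
    C (n * τ) y = Sm (g τ) (C τ) n y := by
  induction n with
  | zero => rw [Nat.cast_zero, zero_mul, hC.zero hg]; simp [Sm]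
  | succ n ih =>
    have e : ((n + 1 : ℕ) : ℝ) * τ = τ + n * τ := by push_cast; ring
    have h2 : ∀ i : ℕ, (g τ)^[i] y = g (i * τ) y := by
      intro i
      induction i with
      | zero => rw [Nat.cast_zero, zero_mul, hg.zero]; rfl
      | succ i ih' =>
        rw [Function.iterate_succ_apply', ih', ← hg.add]
        congr 1
        push_cast
        ring
    rw [e, hC.add, ih]
    unfold Sm
    rw [Finset.sum_range_succ, h2 n]
    ring

theorem growthF (hg : FlowOn B g) (hC : IsCocycle g C) {τ : ℝ} (hτ : 0 < τ) {a ε : ℝ} {y : B}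
    (hy : Tendsto (fun n : ℕ => (n : ℝ)⁻¹ * Sm (g τ) (C τ) n y) atTop (𝓝 a))
    (hε : 0 < a + ε * τ) : Tendsto (fun t : ℝ => C t y + ε * t) atTop atTop := by
  obtain ⟨K, hK⟩ := (isCompact_Icc (a := (0 : ℝ)) (b := τ)).prod (isCompact_univ (X := B))
    |>.exists_bound_of_continuousOn (f := fun q : ℝ × B => C q.1 q.2) hC.cont.continuousOn
  have hlim : Tendsto (fun t : ℝ => t / τ) atTop atTop := tendsto_id.atTop_div_const hτ
  have h0 := (growth hy hε).comp (tendsto_nat_floor_atTop.comp hlim)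
  have h1 : Tendsto (fun t : ℝ => Sm (g τ) (C τ) ⌊t / τ⌋₊ y + (⌊t / τ⌋₊ : ℝ) * (ε * τ) +
      (-K - |ε| * τ)) atTop atTop := h0.atTop_add tendsto_const_nhds
  refine tendsto_atTop_mono' _ ?_ h1
  filter_upwards [eventually_ge_atTop 0] with t ht
  have htτ : 0 ≤ t / τ := by positivity
  obtain ⟨s, hs⟩ : ∃ s, s = t - ⌊t / τ⌋₊ * τ := ⟨_, rfl⟩
  have hs0 : 0 ≤ s := by
    rw [hs]
    have := Nat.floor_le htτ
    rw [le_div_iff₀ hτ] at this
    linarith
  have hs1 : s ≤ τ := by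
    rw [hs]
    have := (Nat.lt_floor_add_one (t / τ)).le
    rw [div_le_iff₀ hτ] at this
    linarith
  have e : C t y = C s (g (⌊t / τ⌋₊ * τ) y) + Sm (g τ) (C τ) ⌊t / τ⌋₊ y := by
    have e2 : t = s + ⌊t / τ⌋₊ * τ := by rw [hs]; ring
    conv_lhs => rw [e2]
    rw [hC.add, C_nat hg hC]
  have h2 := hK (s, g (⌊t / τ⌋₊ * τ) y) ⟨⟨hs0, hs1⟩, mem_univ _⟩
  rw [Real.norm_eq_abs] at h2
  have h3 := (abs_le.1 h2).1
  have h4 : -(|ε| * τ) ≤ ε * s := by
    have h5 : |ε * s| ≤ |ε| * τ := by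
      rw [abs_mul, abs_of_nonneg hs0]
      exact mul_le_mul_of_nonneg_left hs1 (abs_nonneg _)
    exact (neg_le_neg h5).trans (neg_abs_le _)
  have h5 : ε * t = (⌊t / τ⌋₊ : ℝ) * (ε * τ) + ε * s := by rw [hs]; ring
  rw [e, h5]
  linarith

theorem omegaF_sub (Θ : M × B ≃ₜ N) {ε : ℝ} {G : ℝ → N → N}
    (hG : ∀ t p, G t (Θ p) = Θ (skF φ g C ε t p)) {x : M} {y : B}
    (hy : Tendsto (fun t : ℝ => C t y + ε * t) atTop atTop) :
    omegaF G (Θ (x, y)) ⊆ Θ '' (omegaF φ x ×ˢ omegaF g y) := by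
  intro q hq
  obtain ⟨⟨v, v'⟩, rfl⟩ := Θ.surjective q
  refine mem_image_of_mem _ ⟨?_, ?_⟩
  · intro U hU T
    obtain ⟨t₀, ht₀⟩ := eventually_atTop.1 (hy.eventually_ge_atTop T)
    have h1 : Θ '' (U ×ˢ univ) ∈ 𝓝 (Θ (v, v')) :=
      Θ.isOpenMap.image_mem_nhds (prod_mem_nhds hU univ_mem)
    obtain ⟨t, ht, ht2⟩ := hq _ h1 t₀
    rw [hG] at ht2
    obtain ⟨z, hz, hz2⟩ := ht2
    have h3 := Θ.injective hz2
    rw [h3] at hz
    exact ⟨_, ht₀ t ht, hz.1⟩
  · intro U hU T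
    have h1 : Θ '' (univ ×ˢ U) ∈ 𝓝 (Θ (v, v')) :=
      Θ.isOpenMap.image_mem_nhds (prod_mem_nhds univ_mem hU)
    obtain ⟨t, ht, ht2⟩ := hq _ h1 T
    rw [hG] at ht2
    obtain ⟨z, hz, hz2⟩ := ht2
    have h3 := Θ.injective hz2
    rw [h3] at hz
    exact ⟨t, ht, hz.2⟩

theorem skF_rev (ε : ℝ) :
    skF (rev φ) g (fun t y => -C t y) (-ε) = skF φ g C ε := by
  funext t z
  unfold skF rev
  simp only
  congr 2
  ring

theorem residual_mul {τ : ℝ} (hτ : 0 < τ) {P : ℝ → Prop} (h : ∀ᶠ ε in residual ℝ, P ε) :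
    ∀ᶠ ε in residual ℝ, P (ε * τ) := by
  have h1 : Tendsto (fun ε : ℝ => ε * τ) (residual ℝ) (residual ℝ) :=
    tendsto_residual_of_isOpenMap (by fun_prop) (Homeomorph.mulRight₀ τ hτ.ne').isOpenMap
  exact h1.eventually h

/-- `E` is invariant under the flow and contains a point with a dense forward orbit -/
def InvTrF {X : Type*} [TopologicalSpace X] (f : ℝ → X → X) (E : Set X) : Prop :=
  (∀ t, f t '' E = E) ∧ ∃ x ∈ E, E ⊆ closure {y | ∃ t : ℝ, 0 ≤ t ∧ y = f t x}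

theorem invtrF_of (hg : FlowOn B g) (hC : IsCocycle g C) (hφ : FlowOn M φ) {τ : ℝ} (hτ : 0 < τ)
    {L : Set M} (hL : ∀ t, ∀ x ∈ L, φ t x ∈ L) {S : Set B} (hS : ∀ t, g t '' S = S) (Θ : M × B ≃ₜ N)
    {ε : ℝ} {G : ℝ → N → N} (hG : ∀ t p, G t (Θ p) = Θ (skF φ g C ε t p))
    (hE : InvTr (sk φ (g τ) (C τ) (ε * τ)) (L ×ˢ S)) : InvTrF G (Θ '' (L ×ˢ S)) := by
  have hfl := skF_flow hφ hg hC ε
  have hinv' : ∀ t, ∀ p ∈ L ×ˢ S, skF φ g C ε t p ∈ L ×ˢ S := by
    intro t p hp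
    refine ⟨hL _ _ hp.1, ?_⟩
    rw [← hS t]
    exact mem_image_of_mem _ hp.2
  constructor
  · intro t
    apply Subset.antisymm
    · rintro _ ⟨_, ⟨p, hp, rfl⟩, rfl⟩
      rw [hG]
      exact mem_image_of_mem _ (hinv' t p hp)
    · rintro _ ⟨p, hp, rfl⟩
      refine ⟨Θ (skF φ g C ε (-t) p), mem_image_of_mem _ (hinv' (-t) p hp), ?_⟩
      rw [hG, ← hfl.add, add_neg_cancel, hfl.zero]
  · obtain ⟨-, p, hp, hpd⟩ := hE
    refine ⟨Θ p, mem_image_of_mem _ hp, ?_⟩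
    have h2 : Θ '' (L ×ˢ S) ⊆
        Θ '' closure (range fun n : ℕ => (sk φ (g τ) (C τ) (ε * τ))^[n] p) := image_mono hpd
    refine h2.trans ((image_closure_subset_closure_image Θ.continuous).trans (closure_mono ?_))
    rintro _ ⟨_, ⟨n, rfl⟩, rfl⟩
    exact ⟨n * τ, by positivity, by rw [hG, skF_nat hφ hg hC]⟩

theorem finite_genF [MeasurableSpace M] (μM : Measure M) [SFinite μM] (μB : Measure B) [SFinite μB]
    (hg : FlowOn B g) (hC : IsCocycle g C) {τ : ℝ} {p : ℕ} {m : Fin p → Measure B}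
    (H : IsPhysicalF μB g τ m) (hφ : FlowOn M φ) (Θ : M × B ≃ₜ N) [MeasurableSpace N] (μ : Measure N)
    (hμ : ACProd Θ μM μB μ) :
    ∀ᶠ ε in residual ℝ, FinSigns μM φ (fun j => (∫ y, C τ y ∂(m j)) + ε * τ) →
      FiniteAttractorsF μ (fun t z => Θ (skF φ g C ε t (Θ.symm z))) := by
  have := H.prob
  have hτ := H.pos
  have hgc : ∀ t, Continuous (g t) := fun t => hg.cont.comp (continuous_const.prodMk continuous_id)
  have hCc : ∀ t, Continuous (C t) := fun t => hC.cont.comp (continuous_const.prodMk continuous_id)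
  have hS : ∀ j t, g t '' (m j).support = (m j).support := fun j t =>
    support_inv (hgc t) (hgc (-t)) (fun y => by rw [← hg.add, neg_add_cancel, hg.zero])
      (fun y => by rw [← hg.add, add_neg_cancel, hg.zero]) (H.inv j t)
  obtain ⟨q, L, hL, hLn⟩ := family hφ μM
  obtain ⟨q', L', hL', hLn'⟩ := family (rev_flow hφ) μM
  have h1 : ∀ᶠ ε in residual ℝ, ∀ j, ∀ i, 0 < (∫ y, C τ y ∂(m j)) + ε * τ →
      InvTr (sk φ (g τ) (C τ) (ε * τ)) (L i ×ˢ (m j).support) :=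
    residual_mul hτ (eventually_all.2 fun j => eventually_all.2 fun i =>
      fwd (H.erg j) (hgc τ) (hCc τ) (hS j τ) hφ (hL i))
  have h2 : ∀ᶠ ε in residual ℝ, ∀ j, ∀ i, (∫ y, C τ y ∂(m j)) + ε * τ < 0 →
      InvTr (sk φ (g τ) (C τ) (ε * τ)) (L' i ×ˢ (m j).support) :=
    residual_mul hτ (eventually_all.2 fun j => eventually_all.2 fun i =>
      bwd (H.erg j) (hgc τ) (hCc τ) (hS j τ) hφ (hL' i))
  have h3 : ∀ᶠ ε in residual ℝ, ∀ j, (∫ y, C τ y ∂(m j)) + ε * τ ≠ 0 :=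
    residual_mul hτ (eventually_all.2 fun j => residual_ne _)
  filter_upwards [h1, h2, h3] with ε hε1 hε2 hε3 hfin
  obtain ⟨G, hGd⟩ : ∃ G : ℝ → N → N, G = fun t z => Θ (skF φ g C ε t (Θ.symm z)) := ⟨_, rfl⟩
  rw [← hGd]
  have hG : ∀ t p, G t (Θ p) = Θ (skF φ g C ε t p) := by
    intro t p
    rw [hGd]
    show Θ (skF φ g C ε t (Θ.symm (Θ p))) = _
    rw [Θ.symm_apply_apply]
  have hLr : ∀ i t, ∀ x ∈ L' i, φ t x ∈ L' i := by
    intro i t x hx
    have h7 := (hL' i).inv (-t) x hx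
    unfold rev at h7
    rwa [neg_neg] at h7
  let Y : (Fin p × Fin q) ⊕ (Fin p × Fin q') → Set (M × B) := fun s =>
    Sum.elim (fun s => L s.2 ×ˢ (m s.1).support) (fun s => L' s.2 ×ˢ (m s.1).support) s
  let κ := {s : (Fin p × Fin q) ⊕ (Fin p × Fin q') // InvTrF G (Θ '' (Y s))}
  refine finF_of_cover μ G (κ := κ) (fun s => Θ '' (Y s.1)) (fun s => s.2.1) (fun s => s.2.2) ?_
  have h4 := null_cover (P := fun x => ((∃ j, 0 < (∫ y, C τ y ∂(m j)) + ε * τ) →
      ∃ i, omegaF φ x ⊆ L i) ∧ ((∃ j, (∫ y, C τ y ∂(m j)) + ε * τ < 0) →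
      ∃ i, omegaF (rev φ) x ⊆ L' i))
    (Q := fun y => ∃ j, omegaF g y ⊆ (m j).support ∧
      Tendsto (fun n : ℕ => (n : ℝ)⁻¹ * Sm (g τ) (C τ) n y) atTop (𝓝 (∫ z, C τ z ∂(m j))))
    (R := fun z => ∃ s : κ, omegaF G z ⊆ Θ '' (Y s.1)) Θ.surjective hμ ?_ (H.basin _ (hCc τ)) ?_
  · simpa only [not_exists] using h4
  · have h5 : μM {x | ¬ ((∃ j, 0 < (∫ y, C τ y ∂(m j)) + ε * τ) → ∃ i, omegaF φ x ⊆ L i)} = 0 := by
      by_cases hj : ∃ j, 0 < (∫ y, C τ y ∂(m j)) + ε * τ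
      · refine measure_mono_null ?_ (hLn (hfin.1 hj))
        intro x hx i hi
        exact hx fun _ => ⟨i, hi⟩
      · refine measure_mono_null ?_ measure_empty
        intro x hx
        exact hx fun hj' => absurd hj' hj
    have h6 : μM {x | ¬ ((∃ j, (∫ y, C τ y ∂(m j)) + ε * τ < 0) →
        ∃ i, omegaF (rev φ) x ⊆ L' i)} = 0 := by
      by_cases hj : ∃ j, (∫ y, C τ y ∂(m j)) + ε * τ < 0
      · refine measure_mono_null ?_ (hLn' (hfin.2 hj))
        intro x hx i hi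
        exact hx fun _ => ⟨i, hi⟩
      · refine measure_mono_null ?_ measure_empty
        intro x hx
        exact hx fun hj' => absurd hj' hj
    refine measure_mono_null ?_ (measure_union_null h5 h6)
    intro x hx
    by_contra hcon
    apply hx
    rw [mem_union, not_or] at hcon
    exact ⟨not_not.1 hcon.1, not_not.1 hcon.2⟩
  · rintro x y ⟨hx1, hx2⟩ ⟨j, hj1, hj2⟩
    rcases (hε3 j).lt_or_gt with hneg | hpos
    · obtain ⟨i, hi⟩ := hx2 ⟨j, hneg⟩
      have hC' : IsCocycle g (fun t y => -C t y) :=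
        ⟨hC.cont.neg, fun s t y => by rw [hC.add]; ring⟩
      have h7 : Tendsto (fun n : ℕ => (n : ℝ)⁻¹ * Sm (g τ) (fun y => -C τ y) n y) atTop
          (𝓝 (-∫ z, C τ z ∂(m j))) := by
        have e : ∀ n : ℕ, Sm (g τ) (fun y => -C τ y) n y = -Sm (g τ) (C τ) n y :=
          fun n => Sm_neg (c := C τ) n y
        simp only [e, mul_neg]
        exact hj2.neg
      have h8 := growthF hg hC' hτ (ε := -ε) h7 (by linarith)
      have h9 := omegaF_sub (φ := rev φ) (C := fun t y => -C t y) (ε := -ε) Θ (G := G)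
        (by rw [skF_rev]; exact hG) (x := x) h8
      exact ⟨⟨Sum.inr (j, i), invtrF_of hg hC hφ hτ (hLr i) (hS j) Θ hG (hε2 j i hneg)⟩,
        h9.trans (image_mono (prod_mono hi hj1))⟩
    · obtain ⟨i, hi⟩ := hx1 ⟨j, hpos⟩
      have h8 := growthF hg hC hτ hj2 hpos
      have h9 := omegaF_sub Θ hG (x := x) h8
      exact ⟨⟨Sum.inl (j, i), invtrF_of hg hC hφ hτ (hL i).inv (hS j) Θ hG (hε1 j i hpos)⟩,
        h9.trans (image_mono (prod_mono hi hj1))⟩

end Run7.h491.FS
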