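import Pool.Agent.Run7.h491.FS.VF

/-!
# Gradient-like flows have finitely many attractors
-/

set_option autoImplicit false
set_option linter.unusedSectionVars false

open Filter Set Topology MeasureTheory TopologicalSpace

universe u v w

namespace Run7.h491.FS

open Pool.Agent.N15.EQ (FlowOn omegaF IsAttractorF FiniteAttractorsF)

variable {M : Type v} [TopologicalSpace M] {φ : ℝ → M → M} {f : M → ℝ}

theorem GradLike.mono (hφ : FlowOn M φ) (h : GradLike φ f) (x : M) {s t : ℝ} (hst : s ≤ t) :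
    f (φ s x) ≤ f (φ t x) := by
  have e : φ t x = φ (t - s) (φ s x) := by rw [← hφ.add, sub_add_cancel]
  rw [e]
  rcases h.incr (φ s x) with h1 | h1
  · rw [h1]
  · rcases hst.lt_or_eq with h2 | h2
    · exact (h1 _ (sub_pos.2 h2)).le
    · rw [h2, sub_self, hφ.zero]

theorem GradLike.omega_rest (hφ : FlowOn M φ) (h : GradLike φ f) (x : M) {q : M}
    (hq : q ∈ omegaF φ x) : ∀ t, φ t q = q := by
  rcases h.incr q with h1 | h1
  · exact h1
  · exfalso
    have h2 := h1 1 one_pos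
    obtain ⟨a, ha1, ha2⟩ := exists_between h2
    have hc1 : Continuous fun z => f (φ 1 z) :=
      h.cont.comp (hφ.cont.comp (continuous_const.prodMk continuous_id))
    have hU : {z | f z < a} ∩ {z | a < f (φ 1 z)} ∈ 𝓝 q :=
      inter_mem ((isOpen_lt h.cont continuous_const).mem_nhds ha1)
        ((isOpen_lt continuous_const hc1).mem_nhds ha2)
    obtain ⟨t₁, -, ht₁⟩ := hq _ hU 0
    obtain ⟨t₂, ht₂, ht₂'⟩ := hq _ hU (1 + t₁)
    have h3 : a < f (φ 1 (φ t₁ x)) := ht₁.2
    rw [← hφ.add] at h3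
    have h4 : f (φ t₂ x) < a := ht₂'.1
    have h5 := h.mono hφ x ht₂
    linarith

theorem exists_omega {x : M} {K : Set M} (hK : IsCompact K)
    (hx : ∀ T : ℝ, ∃ t, T ≤ t ∧ φ t x ∈ K) : ∃ q ∈ K, q ∈ omegaF φ x := by
  by_contra hcon
  push Not at hcon
  have h1 : ∃ T : ℝ, ∀ t, T ≤ t → φ t x ∉ K := by
    refine hK.induction_on (p := fun S => ∃ T : ℝ, ∀ t, T ≤ t → φ t x ∉ S) ?_ ?_ ?_ ?_
    · exact ⟨0, fun t _ => notMem_empty _⟩
    · rintro S S' hSS' ⟨T, hT⟩
      exact ⟨T, fun t ht h2 => hT t ht (hSS' h2)⟩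
    · rintro S S' ⟨T, hT⟩ ⟨T', hT'⟩
      refine ⟨max T T', fun t ht h2 => ?_⟩
      rcases h2 with h2 | h2
      · exact hT t ((le_max_left _ _).trans ht) h2
      · exact hT' t ((le_max_right _ _).trans ht) h2
    · intro q hq
      have h2 := hcon q hq
      unfold omegaF at h2
      rw [mem_ofPred_eq] at h2
      push Not at h2
      obtain ⟨U, hU, T, hT⟩ := h2
      exact ⟨U, mem_nhdsWithin_of_mem_nhds hU, T, hT⟩
  obtain ⟨T, hT⟩ := h1
  obtain ⟨t, ht, ht2⟩ := hx T
  exact hT t ht ht2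

theorem GradLike.omega_one [T2Space M] [CompactSpace M] (hφ : FlowOn M φ) (h : GradLike φ f)
    (x : M) : ∃ p, (∀ t, φ t p = p) ∧ omegaF φ x ⊆ {p} := by
  obtain ⟨p, -, hp⟩ := exists_omega (φ := φ) (x := x) isCompact_univ
    (fun T => ⟨T, le_rfl, mem_univ _⟩)
  refine ⟨p, h.omega_rest hφ x hp, fun p' hp' => ?_⟩
  by_contra hne
  have hR : IsClosed ({x | ∀ t, φ t x = x} \ {p}) := (h.fin.sdiff).isClosed
  obtain ⟨U, W, hU, hW, hpU, hRW, hdis⟩ := normal_separation (isClosed_singleton (x := p)) hR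
    disjoint_sdiff_right
  have hpU' : p ∈ U := hpU rfl
  have hclW : Disjoint (closure U) W := hdis.closure_left hW
  have hp'W : p' ∈ W := hRW ⟨h.omega_rest hφ x hp', hne⟩
  have hfr : ∀ T : ℝ, ∃ t, T ≤ t ∧ φ t x ∈ frontier U := by
    intro T
    obtain ⟨t₁, ht₁, ht₁'⟩ := hp U (hU.mem_nhds hpU') T
    obtain ⟨t₂, ht₂, ht₂'⟩ := hp' W (hW.mem_nhds hp'W) t₁
    have hcx : Continuous fun t => φ t x := hφ.cont.comp (continuous_id.prodMk continuous_const)
    have hpre : IsPreconnected ((fun t => φ t x) '' Icc t₁ t₂) :=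
      isPreconnected_Icc.image _ hcx.continuousOn
    have h1 : φ t₁ x ∈ (fun t => φ t x) '' Icc t₁ t₂ := mem_image_of_mem _ (left_mem_Icc.2 ht₂)
    have h2 : φ t₂ x ∈ (fun t => φ t x) '' Icc t₁ t₂ := mem_image_of_mem _ (right_mem_Icc.2 ht₂)
    have h3 : φ t₂ x ∉ closure U := fun h4 => hclW.le_bot ⟨h4, ht₂'⟩
    by_contra hcon
    push Not at hcon
    have hsub : (fun t => φ t x) '' Icc t₁ t₂ ⊆ U ∪ (closure U)ᶜ := by
      rintro _ ⟨t, ht, rfl⟩
      by_contra h6
      rw [mem_union, not_or] at h6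
      refine hcon t (ht₁.trans ht.1) ⟨not_not.1 h6.2, ?_⟩
      rw [hU.interior_eq]
      exact h6.1
    obtain ⟨z, -, hz1, hz2⟩ := hpre U (closure U)ᶜ hU isClosed_closure.isOpen_compl hsub
      ⟨_, h1, ht₁'⟩ ⟨_, h2, h3⟩
    exact hz2 (subset_closure hz1)
  obtain ⟨q, hq, hqω⟩ := exists_omega isClosed_frontier.isCompact hfr
  have hqR := h.omega_rest hφ x hqω
  by_cases hqp : q = p
  · rw [hqp, frontier, hU.interior_eq] at hq
    exact hq.2 hpU'
  · exact hclW.le_bot ⟨frontier_subset_closure hq, hRW ⟨hqR, hqp⟩⟩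

theorem GradLike.finite [T2Space M] [CompactSpace M] [MeasurableSpace M] (hφ : FlowOn M φ)
    (h : GradLike φ f) (μM : Measure M) : FiniteAttractorsF μM φ := by
  have : Finite {x | ∀ t, φ t x = x} := h.fin.to_subtype
  refine finF_of_cover μM φ (κ := {x | ∀ t, φ t x = x}) (fun p => {p.1}) (fun p t => ?_)
    (fun p => ⟨p.1, rfl, ?_⟩) ?_
  · rw [image_singleton, p.2 t]
  · rintro _ rfl
    exact subset_closure ⟨0, le_rfl, (hφ.zero _).symm⟩
  · refine measure_mono_null (t := ∅) ?_ measure_empty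
    intro x hx
    obtain ⟨p, hp, hpx⟩ := h.omega_one hφ x
    exact hx ⟨p, hp⟩ hpx

theorem GradLike.reverse (hφ : FlowOn M φ) (h : GradLike φ f) : GradLike (rev φ) (-f) where
  cont := h.cont.neg
  incr x := by
    unfold rev
    rcases h.incr x with h1 | h1
    · exact Or.inl fun t => h1 _
    · right
      intro t ht
      rw [Pi.neg_apply, Pi.neg_apply, neg_lt_neg_iff]
      rcases h.incr (φ (-t) x) with h2 | h2
      · exfalso
        have h3 : x = φ t (φ (-t) x) := by rw [← hφ.add, add_neg_cancel, hφ.zero]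
        rw [h2] at h3
        have h4 := h1 t ht
        have h5 : φ t x = x := by
          conv_lhs => rw [h3]
          rw [h2]
          exact h3.symm
        rw [h5] at h4
        exact lt_irrefl _ h4
      · have h3 := h2 t ht
        rwa [← hφ.add, add_neg_cancel, hφ.zero] at h3
  fin := by
    refine h.fin.subset fun x hx t => ?_
    have h1 := hx (-t)
    unfold rev at h1
    rwa [neg_neg] at h1

end Run7.h491.FS
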