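import Pool.Agent.Run7.h491.FS.FlowPart

/-!
# Skew products whose fibre maps belong to a flow: manifolds
-/

set_option autoImplicit false
set_option linter.unusedSectionVars false

open scoped Manifold ContDiff Topology
open Filter Set MeasureTheory TopologicalSpace

universe u v w

namespace Run7.h491.FS

open Pool.Agent.H718R2.G
open Pool.Agent.N15.EQ (FlowOn omegaF IsAttractorF FiniteAttractorsF)
open Pool.Agent.H728R2.FA (omegaLim IsAttractor FiniteAttractors)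
open Run7.h491.HP (IsCrFlow tm near)
open Run7.h619.AA (PDiff)

theorem physical_single {B : Type u} [TopologicalSpace B] [CompactSpace B] [MeasurableSpace B]
    [BorelSpace B] {h : B → B} {m μB : Measure B} [IsProbabilityMeasure m] [m.IsOpenPosMeasure]
    (H : Ergodic h m) (hac : μB ≪ m) : IsPhysical μB h (fun _ : Fin 1 => m) where
  prob _ := inferInstance
  erg _ := H
  basin c hc := by
    have h1 := birk H hc
    filter_upwards [hac.ae_le h1] with y hy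
    refine ⟨0, ?_, hy⟩
    rw [Measure.support_eq_univ]
    exact subset_univ _

theorem physicalF_single {B : Type u} [TopologicalSpace B] [CompactSpace B] [MeasurableSpace B]
    [BorelSpace B] {g : ℝ → B → B} {m μB : Measure B} [IsProbabilityMeasure m] [m.IsOpenPosMeasure]
    {τ : ℝ} (hτ : 0 < τ) (hinv : ∀ t, MeasurePreserving (g t) m m) (H : Ergodic (g τ) m)
    (hac : μB ≪ m) : IsPhysicalF μB g τ (fun _ : Fin 1 => m) where
  pos := hτ
  prob _ := inferInstance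
  inv _ := hinv
  erg _ := H
  basin c hc := by
    have h1 := birk H hc
    filter_upwards [hac.ae_le h1] with y hy
    refine ⟨0, ?_, hy⟩
    rw [Measure.support_eq_univ]
    exact subset_univ _

variable {k b n : ℕ} {M : Type v} {B : Type u} {N : Type w} [TopologicalSpace M]
  [ChartedSpace (V k) M] [TopologicalSpace B] [ChartedSpace (V b) B] [TopologicalSpace N]
  [ChartedSpace (V n) N] {r : ℕ∞} {Θ : PDiff k b n M B N} {φ : ℝ → M → M} {h : DiffM b B r}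
  {c : B → ℝ} {F : DiffM n N r}

theorem flowOn {k : ℕ} {M : Type v} [TopologicalSpace M] [ChartedSpace (V k) M] {φ : ℝ → M → M}
    (hφ : IsCrFlow k M r φ) : FlowOn M φ :=
  ⟨hφ.smooth.continuous, hφ.zero, hφ.add⟩

/-- the flow along the fibres -/
noncomputable def psi (Θ : PDiff k b n M B N) (φ : ℝ → M → M) (s : ℝ) (z : N) : N :=
  Θ (φ s (Θ.symm z).1, (Θ.symm z).2)

theorem symm_pt (x : M) (y : B) : Θ.symm (Θ.pt x y) = (x, y) := Θ.symm_apply_apply (x, y)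

theorem pt_symm (z : N) : Θ.pt (Θ.symm z).1 (Θ.symm z).2 = z := Θ.apply_symm_apply z

theorem psi_flow (Θ : PDiff k b n M B N) (hφ : IsCrFlow k M r φ) : IsCrFlow n N r (psi Θ φ) where
  smooth := by
    have h1 : ContMDiff (𝓘(ℝ, ℝ).prod (𝓡 n)) ((𝓡 k).prod (𝓡 b)) r
        (fun q : ℝ × N => Θ.symm q.2) :=
      (Θ.symm.contMDiff.of_le (by exact_mod_cast le_top)).comp contMDiff_snd
    have h2 : ContMDiff (𝓘(ℝ, ℝ).prod (𝓡 n)) (𝓡 k) r
        (fun q : ℝ × N => φ q.1 (Θ.symm q.2).1) :=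
      hφ.smooth.comp (contMDiff_fst.prodMk (contMDiff_fst.comp h1))
    exact (Θ.contMDiff.of_le (by exact_mod_cast le_top)).comp
      (h2.prodMk (contMDiff_snd.comp h1))
  zero z := by
    unfold psi
    rw [hφ.zero]
    exact pt_symm z
  add s t z := by
    unfold psi
    rw [Θ.symm_apply_apply]
    simp only
    rw [hφ.add]

theorem shift_skew (hF : IsFlowSkew Θ φ h c F) (ε : ℝ) :
    IsFlowSkew Θ φ h (fun y => c y + ε) (F.trans (tm (psi_flow Θ hF.flow) ε)) where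
  flow := hF.flow
  cont := hF.cont.add continuous_const
  map x y := by
    show psi Θ φ ε (F (Θ.pt x y)) = _
    rw [hF.map]
    unfold psi
    rw [symm_pt]
    simp only
    rw [← hF.flow.add, add_comm]
    rfl

theorem eq_skew {ε : ℝ} {G : DiffM n N r} (hG : IsFlowSkew Θ φ h (fun y => c y + ε) G) :
    (G : N → N) = fun z => Θ.toHomeomorph (sk φ h c ε (Θ.toHomeomorph.symm z)) := by
  funext z
  have h1 := hG.map (Θ.symm z).1 (Θ.symm z).2
  rw [pt_symm] at h1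
  rw [h1]
  rfl

variable [T2Space M] [CompactSpace M] [IsManifold (𝓡 k) ∞ M] [T2Space B] [CompactSpace B]
  [IsManifold (𝓡 b) ∞ B] [T2Space N] [CompactSpace N] [IsManifold (𝓡 n) ∞ N]
  [MeasurableSpace M] [MeasurableSpace B] [BorelSpace B] [MeasurableSpace N]

theorem main1 (μM : Measure M) [SFinite μM] (μB : Measure B) [SFinite μB] (μ : Measure N)
    (hμ : ACProd Θ μM μB μ) {p : ℕ} {m : Fin p → Measure B} (hF : IsFlowSkew Θ φ h c F)
    (H : IsPhysical μB h m) :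
    ∀ᶠ ε in residual ℝ, ∀ G : DiffM n N r, IsFlowSkew Θ φ h (fun y => c y + ε) G →
      FinSigns μM φ (fun j => (∫ y, c y ∂(m j)) + ε) → FiniteAttractors μ G := by
  have : SecondCountableTopology M := ChartedSpace.secondCountable_of_sigmaCompact (V k) M
  have : SecondCountableTopology B := ChartedSpace.secondCountable_of_sigmaCompact (V b) B
  have h1 := finite_gen μM μB H h.continuous h.symm.continuous h.symm_apply_apply
    h.apply_symm_apply hF.cont (flowOn hF.flow) Θ.toHomeomorph μ hμ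
  filter_upwards [h1] with ε hε G hG hs
  rw [eq_skew hG]
  exact hε hs

theorem exists_near (μM : Measure M) [SFinite μM] (μB : Measure B) [SFinite μB] (μ : Measure N)
    (hμ : ACProd Θ μM μB μ) {F : DiffM n N r} (hF : IsGoodSkew Θ μM μB F) {U : Set (DiffM n N r)}
    (hU : IsOpen[strongTop n N r] U) (hFU : F ∈ U) :
    ∃ G ∈ U, IsGoodSkew Θ μM μB G ∧ FiniteAttractors μ G := by
  obtain ⟨φ, h, c, p, m, hsk, hph, hs⟩ := hF
  obtain ⟨δ, hδ, hnear⟩ := near (psi_flow Θ hsk.flow) hU F hFU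
  have hd : Dense {ε : ℝ | ∀ G : DiffM n N r, IsFlowSkew Θ φ h (fun y => c y + ε) G →
      FinSigns μM φ (fun j => (∫ y, c y ∂(m j)) + ε) → FiniteAttractors μ G} :=
    dense_of_mem_residual (main1 μM μB μ hμ hsk hph)
  have hprob := hph.prob
  have hint : ∀ (ε : ℝ) (j : Fin p), ∫ y, (c y + ε) ∂(m j) = (∫ y, c y ∂(m j)) + ε := by
    intro ε j
    have h1 : Integrable c (m j) := hsk.cont.integrable_of_hasCompactSupport
      (HasCompactSupport.of_compactSpace c)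
    rw [integral_add h1 (integrable_const ε)]
    simp
  -- the sign of the perturbation
  obtain ⟨ε, hεd, hε1, hε2, hε3⟩ : ∃ ε : ℝ, |ε| < δ ∧ (∀ G : DiffM n N r,
      IsFlowSkew Θ φ h (fun y => c y + ε) G →
      FinSigns μM φ (fun j => (∫ y, c y ∂(m j)) + ε) → FiniteAttractors μ G) ∧
      FinSigns μM φ (fun j => (∫ y, c y ∂(m j)) + ε) ∧
      FinSigns' μM φ (fun j => (∫ y, c y ∂(m j)) + ε) := by
    rcases hs with ⟨h1, h2⟩ | ⟨h1, h2⟩ | ⟨h1, h2⟩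
    · obtain ⟨ε, hε, hε2⟩ := hd.exists_between hδ
      exact ⟨ε, by rw [abs_of_pos hε2.1]; exact hε2.2, hε, ⟨fun _ => h1, fun _ => h2⟩,
        Or.inl ⟨h1, h2⟩⟩
    · obtain ⟨ε, hε, hε2⟩ := hd.exists_between hδ
      have h3 : ∀ j, 0 < (∫ y, c y ∂(m j)) + ε := fun j => by linarith [h1 j, hε2.1]
      exact ⟨ε, by rw [abs_of_pos hε2.1]; exact hε2.2, hε,
        ⟨fun _ => h2, fun ⟨j, hj⟩ => absurd hj (h3 j).not_gt⟩,
        Or.inr (Or.inl ⟨fun j => (h3 j).le, h2⟩)⟩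
    · obtain ⟨ε, hε, hε2⟩ := hd.exists_between (neg_lt_zero.2 hδ)
      have h3 : ∀ j, (∫ y, c y ∂(m j)) + ε < 0 := fun j => by linarith [h1 j, hε2.2]
      exact ⟨ε, by rw [abs_of_neg hε2.2]; linarith [hε2.1], hε,
        ⟨fun ⟨j, hj⟩ => absurd hj (h3 j).not_gt, fun _ => h2⟩,
        Or.inr (Or.inr ⟨fun j => (h3 j).le, h2⟩)⟩
  have hsh := shift_skew hsk ε
  refine ⟨_, hnear ε hεd, ⟨φ, h, _, p, m, hsh, hph, ?_⟩, hε1 _ hsh hε2⟩
  simpa only [hint] using hε3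

theorem main2 (μM : Measure M) [SFinite μM] (μB : Measure B) [SFinite μB] (μ : Measure N)
    (hμ : ACProd Θ μM μB μ) :
    closure[strongTop n N r] {F | IsGoodSkew Θ μM μB F} ⊆
      closure[strongTop n N r] {G | IsGoodSkew Θ μM μB G ∧ FiniteAttractors μ G} := by
  let _ := strongTop n N r
  intro F hF
  rw [mem_closure_iff] at hF ⊢
  intro U hU hFU
  obtain ⟨F', hF'U, hF'⟩ := hF U hU hFU
  obtain ⟨G, hGU, hG, hG'⟩ := exists_near μM μB μ hμ hF' hU hF'U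
  exact ⟨G, hGU, hG, hG'⟩

/-- the skew product flow on `N` -/
noncomputable def skN (Θ : PDiff k b n M B N) (φ : ℝ → M → M) (g : ℝ → B → B) (C : ℝ → B → ℝ)
    (ε t : ℝ) (z : N) : N :=
  Θ.pt (φ (C t (Θ.symm z).2 + ε * t) (Θ.symm z).1) (g t (Θ.symm z).2)

theorem skN_smooth (Θ : PDiff k b n M B N) (hφ : IsCrFlow k M r φ) {g : ℝ → B → B}
    (hg : IsCrFlow b B r g) {C : ℝ → B → ℝ}
    (hC : ContMDiff (𝓘(ℝ, ℝ).prod (𝓡 b)) 𝓘(ℝ, ℝ) r (fun q : ℝ × B => C q.1 q.2)) :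
    ContMDiff (𝓘(ℝ, ℝ).prod (𝓘(ℝ, ℝ).prod (𝓡 n))) (𝓡 n) r
      (fun q : ℝ × ℝ × N => skN Θ φ g C q.1 q.2.1 q.2.2) := by
  have h0 : ContMDiff (𝓘(ℝ, ℝ).prod (𝓘(ℝ, ℝ).prod (𝓡 n))) ((𝓡 k).prod (𝓡 b)) r
      (fun q : ℝ × ℝ × N => Θ.symm q.2.2) :=
    (Θ.symm.contMDiff.of_le (by exact_mod_cast le_top)).comp (contMDiff_snd.comp contMDiff_snd)
  have h1 : ContMDiff (𝓘(ℝ, ℝ).prod (𝓘(ℝ, ℝ).prod (𝓡 n))) (𝓡 b) r
      (fun q : ℝ × ℝ × N => (Θ.symm q.2.2).2) := contMDiff_snd.comp h0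
  have ht : ContMDiff (𝓘(ℝ, ℝ).prod (𝓘(ℝ, ℝ).prod (𝓡 n))) 𝓘(ℝ, ℝ) r
      (fun q : ℝ × ℝ × N => q.2.1) := contMDiff_fst.comp contMDiff_snd
  have hε : ContMDiff (𝓘(ℝ, ℝ).prod (𝓘(ℝ, ℝ).prod (𝓡 n))) 𝓘(ℝ, ℝ) r
      (fun q : ℝ × ℝ × N => q.1) := contMDiff_fst
  have h2 : ContMDiff (𝓘(ℝ, ℝ).prod (𝓘(ℝ, ℝ).prod (𝓡 n))) 𝓘(ℝ, ℝ) r
      (fun q : ℝ × ℝ × N => C q.2.1 (Θ.symm q.2.2).2 + q.1 * q.2.1) := by
    have h3 : ContMDiff (𝓘(ℝ, ℝ).prod (𝓘(ℝ, ℝ).prod (𝓡 n))) 𝓘(ℝ, ℝ) r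
        (fun q : ℝ × ℝ × N => C q.2.1 (Θ.symm q.2.2).2) := hC.comp (ht.prodMk h1)
    exact h3.add (hε.mul ht)
  have h4 : ContMDiff (𝓘(ℝ, ℝ).prod (𝓘(ℝ, ℝ).prod (𝓡 n))) (𝓡 k) r
      (fun q : ℝ × ℝ × N => φ (C q.2.1 (Θ.symm q.2.2).2 + q.1 * q.2.1) (Θ.symm q.2.2).1) :=
    hφ.smooth.comp (h2.prodMk (contMDiff_fst.comp h0))
  have h5 : ContMDiff (𝓘(ℝ, ℝ).prod (𝓘(ℝ, ℝ).prod (𝓡 n))) (𝓡 b) r
      (fun q : ℝ × ℝ × N => g q.2.1 (Θ.symm q.2.2).2) := hg.smooth.comp (ht.prodMk h1)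
  exact (Θ.contMDiff.of_le (by exact_mod_cast le_top)).comp (h4.prodMk h5)

theorem skN_flow (Θ : PDiff k b n M B N) (hφ : IsCrFlow k M r φ) {g : ℝ → B → B}
    (hg : IsCrFlow b B r g) {C : ℝ → B → ℝ}
    (hC : ContMDiff (𝓘(ℝ, ℝ).prod (𝓡 b)) 𝓘(ℝ, ℝ) r (fun q : ℝ × B => C q.1 q.2))
    (hCa : ∀ s t y, C (s + t) y = C s (g t y) + C t y) (ε : ℝ) :
    IsCrFlow n N r (skN Θ φ g C ε) := by
  have hcoc : IsCocycle g C := ⟨hC.continuous, hCa⟩
  have : SecondCountableTopology M := ChartedSpace.secondCountable_of_sigmaCompact (V k) M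
  have : SecondCountableTopology B := ChartedSpace.secondCountable_of_sigmaCompact (V b) B
  have hfl := skF_flow (flowOn hφ) (flowOn hg) hcoc ε
  refine ⟨?_, fun z => ?_, fun s t z => ?_⟩
  · have h1 : ContMDiff (𝓘(ℝ, ℝ).prod (𝓡 n)) (𝓘(ℝ, ℝ).prod (𝓘(ℝ, ℝ).prod (𝓡 n))) r
        (fun q : ℝ × N => ((ε, q.1, q.2) : ℝ × ℝ × N)) :=
      contMDiff_const.prodMk (contMDiff_fst.prodMk contMDiff_snd)
    exact (skN_smooth Θ hφ hg hC).comp h1
  · have h1 := hfl.zero (Θ.symm z)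
    show Θ (skF φ g C ε 0 (Θ.symm z)) = z
    rw [h1]
    exact Θ.apply_symm_apply z
  · have h1 := hfl.add s t (Θ.symm z)
    show Θ (skF φ g C ε (s + t) (Θ.symm z)) = Θ (skF φ g C ε s (Θ.symm (Θ (skF φ g C ε t (Θ.symm z)))))
    rw [h1, Θ.symm_apply_apply]

theorem main3 (μM : Measure M) [SFinite μM] (μB : Measure B) [SFinite μB] (μ : Measure N)
    (hμ : ACProd Θ μM μB μ) (hφ : IsCrFlow k M r φ) {g : ℝ → B → B}
    (hg : IsCrFlow b B r g) {C : ℝ → B → ℝ}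
    (hC : ContMDiff (𝓘(ℝ, ℝ).prod (𝓡 b)) 𝓘(ℝ, ℝ) r (fun q : ℝ × B => C q.1 q.2))
    (hCa : ∀ s t y, C (s + t) y = C s (g t y) + C t y) {τ : ℝ} {p : ℕ} {m : Fin p → Measure B}
    (H : IsPhysicalF μB g τ m) :
    ∀ᶠ ε in residual ℝ, FinSigns μM φ (fun j => (∫ y, C τ y ∂(m j)) + ε * τ) →
      FiniteAttractorsF μ (skN Θ φ g C ε) := by
  have : SecondCountableTopology M := ChartedSpace.secondCountable_of_sigmaCompact (V k) M
  have : SecondCountableTopology B := ChartedSpace.secondCountable_of_sigmaCompact (V b) B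
  exact finite_genF μM μB (flowOn hg) ⟨hC.continuous, hCa⟩ H (flowOn hφ) Θ.toHomeomorph μ hμ

end Run7.h491.FS
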