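import Pool.Agent.Run7.h491.FS.Dyn
import Pool.Agent.N15.EQ.Flow

/-!
# Skew products over ergodic maps whose fibre maps belong to a flow: dense orbits
-/

set_option autoImplicit false
set_option linter.unusedSectionVars false

open Filter Set Topology MeasureTheory TopologicalSpace

universe u v

namespace Run7.h491.FS

open Pool.Agent.N15.EQ (FlowOn)

variable {M : Type v} [TopologicalSpace M] [T2Space M] [CompactSpace M] [SecondCountableTopology M]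
  {B : Type u} [TopologicalSpace B] [T2Space B] [CompactSpace B] [SecondCountableTopology B]
  [MeasurableSpace B] [BorelSpace B]
  {m : Measure B} [IsProbabilityMeasure m] {h : B → B} {c : B → ℝ}
  {φ : ℝ → M → M}

theorem sk_cont (hφ : FlowOn M φ) (hh : Continuous h) (hc : Continuous c) (ε : ℝ) :
    Continuous (sk φ h c ε) := by
  unfold sk
  have h1 : Continuous fun p : M × B => ((c p.2 + ε, p.1) : ℝ × M) := by fun_prop
  exact (hφ.cont.comp h1).prodMk (hh.comp continuous_snd)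

theorem pos_of_support {V : Set B} (hV : IsOpen V) (hne : (V ∩ m.support).Nonempty) : 0 < m V := by
  obtain ⟨y, hy, hy2⟩ := hne
  exact (Measure.mem_support_iff_forall y).1 hy2 V (hV.mem_nhds hy)

theorem residual_trans (H : Ergodic h m) (hh : Continuous h) (hc : Continuous c)
    (hφ : FlowOn M φ) {L : Set M} (hLc : IsClosed L) {x₀ : M} (hx₀ : x₀ ∈ L)
    (hL : ∀ t, ∀ x ∈ L, φ t x ∈ L) (hT : Tails φ L x₀) :
    ∀ᶠ ε in residual ℝ, 0 < (∫ y, c y ∂m) + ε → ∃ p ∈ L ×ˢ m.support,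
      L ×ˢ m.support ⊆ closure (range fun n : ℕ => (sk φ h c ε)^[n] p) := by
  obtain ⟨a, ha⟩ : ∃ a, a = ∫ y, c y ∂m := ⟨_, rfl⟩
  have hSae : m.support ∈ ae m := Measure.support_mem_ae
  obtain ⟨S, hS⟩ : ∃ S, S = m.support := ⟨_, rfl⟩
  have hScl : IsClosed S := by rw [hS]; exact Measure.isClosed_support
  have hpos : ∀ V : Set B, IsOpen V → (V ∩ S).Nonempty → 0 < m V := fun V hV hne =>
    pos_of_support hV (by rwa [hS] at hne)
  rw [← hS] at hSae ⊢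
  have hbM := isBasis_countableBasis M
  have hbB := isBasis_countableBasis B
  let bM := {W : Set M // W ∈ countableBasis M}
  let bB := {W : Set B // W ∈ countableBasis B}
  have : Countable bM := (countable_countableBasis M).to_subtype
  have : Countable bB := (countable_countableBasis B).to_subtype
  let J := {q : (bM × bB) × (bM × bB) // ((q.1.1.1 ∩ L).Nonempty ∧ (q.1.2.1 ∩ S).Nonempty) ∧
    ((q.2.1.1 ∩ L).Nonempty ∧ (q.2.2.1 ∩ S).Nonempty)}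
  have hJ : Countable J := inferInstance
  let O : J → Set ℝ := fun q => {ε | ∃ n : ℕ, ∃ x ∈ q.1.1.1.1 ∩ L, ∃ y ∈ q.1.1.2.1 ∩ S,
    φ (Sm h c n y + n * ε) x ∈ q.1.2.1.1 ∧ h^[n] y ∈ q.1.2.2.1}
  let O' : J → Set ℝ := fun q => O q ∪ Iio (-a)
  have hO'o : ∀ q, IsOpen (O' q) := by
    intro q
    refine IsOpen.union ?_ isOpen_Iio
    rw [isOpen_iff_mem_nhds]
    rintro ε ⟨n, x, hx, y, hy, h1, h2⟩
    have hcont : Continuous fun ε : ℝ => φ (Sm h c n y + n * ε) x := by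
      have h3 : Continuous fun ε : ℝ => ((Sm h c n y + n * ε, x) : ℝ × M) := by fun_prop
      exact hφ.cont.comp h3
    filter_upwards [hcont.continuousAt.preimage_mem_nhds ((hbM.isOpen q.1.2.1.2).mem_nhds h1)]
      with ε' hε'
    exact ⟨n, x, hx, y, hy, hε', h2⟩
  have hO'd : ∀ q, Dense (O' q) := by
    intro q
    rw [Metric.dense_iff]
    intro w r hr
    rcases lt_or_ge w (-a) with hw | hw
    · exact ⟨w, Metric.mem_ball_self hr, Or.inr hw⟩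
    · obtain ⟨ε, hε, n, x, hx, y, hy, h1, h2⟩ := hit H hc hφ.add hx₀ hL hT
        (hbM.isOpen q.1.1.1.2) (hbM.isOpen q.1.2.1.2) q.2.1.1 q.2.2.1
        (hbB.isOpen q.1.2.2.2)
        (hpos _ (hbB.isOpen q.1.1.2.2) q.2.1.2) (hpos _ (hbB.isOpen q.1.2.2.2) q.2.2.2) hSae
        (α := w + r / 4) (β := w + r / 2) (by linarith) (by rw [← ha]; linarith)
      refine ⟨ε, ?_, Or.inl ⟨n, x, hx, y, hy, h1, h2⟩⟩
      rw [Metric.mem_ball, Real.dist_eq, abs_lt]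
      constructor <;> linarith [hε.1, hε.2]
  have hres : (⋂ q, O' q) ∈ residual ℝ :=
    (countable_iInter_mem (l := residual ℝ)).2 fun q => residual_of_dense_open (hO'o q) (hO'd q)
  filter_upwards [hres] with ε hε hpos'
  rw [← ha] at hpos'
  have hεO : ∀ q, ε ∈ O q := by
    intro q
    rcases mem_iInter.1 hε q with h1 | h1
    · exact h1
    · exfalso
      have : ε < -a := h1
      linarith
  -- the second application of the theorem of Baire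
  have hcs : CompactSpace L := isCompact_iff_compactSpace.1 hLc.isCompact
  have hcs' : CompactSpace S := isCompact_iff_compactSpace.1 hScl.isCompact
  have hSne : S.Nonempty := by
    by_contra hcon
    rw [not_nonempty_iff_eq_empty] at hcon
    rw [hcon, mem_ae_iff, compl_empty, measure_univ] at hSae
    exact one_ne_zero hSae
  obtain ⟨s₀, hs₀⟩ := hSne
  have hKne : Nonempty (L × S) := ⟨(⟨x₀, hx₀⟩, ⟨s₀, hs₀⟩)⟩
  let J₂ := {q : bM × bB // (q.1.1 ∩ L).Nonempty ∧ (q.2.1 ∩ S).Nonempty}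
  have hJ₂ : Countable J₂ := inferInstance
  let W : J₂ → Set (L × S) := fun q => ⋃ n : ℕ,
    {p | (sk φ h c ε)^[n] ((p.1 : M), (p.2 : B)) ∈ q.1.1.1 ×ˢ q.1.2.1}
  have hWo : ∀ q, IsOpen (W q) := by
    intro q
    refine isOpen_iUnion fun n => ?_
    have h1 : Continuous fun p : L × S => (sk φ h c ε)^[n] ((p.1 : M), (p.2 : B)) := by
      refine ((sk_cont hφ hh hc ε).iterate n).comp ?_
      fun_prop
    exact ((hbM.isOpen q.1.1.2).prod (hbB.isOpen q.1.2.2)).preimage h1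
  have hWd : ∀ q, Dense (W q) := by
    intro q
    rw [dense_iff_inter_open]
    rintro G hG ⟨⟨⟨p₁, hp₁⟩, ⟨p₂, hp₂⟩⟩, hp⟩
    obtain ⟨G₁, G₂, hG₁, hG₂, h1, h2, hsub⟩ := isOpen_prod_iff.1 hG ⟨p₁, hp₁⟩ ⟨p₂, hp₂⟩ hp
    obtain ⟨G₃, hG₃, hG₃e⟩ := isOpen_induced_iff.1 hG₁
    obtain ⟨G₄, hG₄, hG₄e⟩ := isOpen_induced_iff.1 hG₂
    have h3 : p₁ ∈ G₃ := by
      rw [← hG₃e] at h1
      exact h1
    have h3' : p₂ ∈ G₄ := by
      rw [← hG₄e] at h2
      exact h2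
    obtain ⟨U, hU, hp₁U, hUG⟩ := hbM.exists_subset_of_mem_open h3 hG₃
    obtain ⟨U', hU', hp₂U, hUG'⟩ := hbB.exists_subset_of_mem_open h3' hG₄
    obtain ⟨n, x, hx, y, hy, h4, h5⟩ := hεO ⟨((⟨U, hU⟩, ⟨U', hU'⟩), q.1),
      ⟨⟨⟨p₁, hp₁U, hp₁⟩, ⟨p₂, hp₂U, hp₂⟩⟩, q.2⟩⟩
    refine ⟨(⟨x, hx.2⟩, ⟨y, hy.2⟩), hsub ⟨?_, ?_⟩, mem_iUnion.2 ⟨n, ?_⟩⟩
    · rw [← hG₃e]
      exact hUG hx.1
    · rw [← hG₄e]
      exact hUG' hy.1
    · show (sk φ h c ε)^[n] (x, y) ∈ q.1.1.1 ×ˢ q.1.2.1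
      rw [sk_iter hφ.zero hφ.add]
      exact ⟨h4, h5⟩
  obtain ⟨p, hp⟩ := (dense_iInter_of_isOpen hWo hWd).nonempty
  refine ⟨((p.1 : M), (p.2 : B)), ⟨p.1.2, p.2.2⟩, ?_⟩
  rintro ⟨v, v'⟩ ⟨hv, hv'⟩
  rw [mem_closure_iff]
  intro G hG hvG
  obtain ⟨G₁, G₂, hG₁, hG₂, h1, h2, hsub⟩ := isOpen_prod_iff.1 hG v v' hvG
  obtain ⟨U, hU, hvU, hUG⟩ := hbM.exists_subset_of_mem_open h1 hG₁
  obtain ⟨U', hU', hvU', hUG'⟩ := hbB.exists_subset_of_mem_open h2 hG₂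
  obtain ⟨n, hn⟩ := mem_iUnion.1 (mem_iInter.1 hp
    ⟨(⟨U, hU⟩, ⟨U', hU'⟩), ⟨⟨v, hvU, hv⟩, ⟨v', hvU', hv'⟩⟩⟩)
  exact ⟨_, hsub ⟨hUG hn.1, hUG' hn.2⟩, ⟨n, rfl⟩⟩

end Run7.h491.FS
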