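import Pool.Agent.Run7.h491.FS.Defs

/-!
# Skew product vector fields: definitions

Tangent vectors at `x ∈ N` are elements of `V n = ℝⁿ` (in Mathlib `TangentSpace (𝓡 n) x = V n`), thus
vector fields are functions `N → V n`.
-/

set_option autoImplicit false
set_option linter.unusedSectionVars false

open scoped Manifold ContDiff Topology
open MeasureTheory

namespace Run7.h491.FS

open Pool.Agent.H718R2.G
open Pool.Agent.N15.EQ (FlowOn FiniteAttractorsF)
open Pool.Agent.H728R2.FA (FiniteAttractors)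
open Run7.h619.AA (PDiff)

/-- `Z` is a `C^r` vector field on `N` -/
def IsVF (n : ℕ) (N : Type*) [TopologicalSpace N] [ChartedSpace (V n) N] [IsManifold (𝓡 n) ∞ N]
    (r : ℕ∞) (Z : N → V n) : Prop :=
  ContMDiff (𝓡 n) (𝓡 n).tangent r (fun z => (⟨z, Z z⟩ : TangentBundle (𝓡 n) N))

/-- The continuous flow `Ψ` is the flow of the vector field `Z`: its orbits are integral curves of
`Z`. -/
structure IsFlowOf (n : ℕ) {N : Type*} [TopologicalSpace N] [ChartedSpace (V n) N]
    (Z : N → V n) (Ψ : ℝ → N → N) : Prop where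
  flow : FlowOn N Ψ
  curve : ∀ z, IsMIntegralCurve (I := 𝓡 n) (fun t => Ψ t z) Z

/-- the derivative of `f` at `x` -/
noncomputable def dL (k n : ℕ) {M N : Type*} [TopologicalSpace M] [ChartedSpace (V k) M]
    [TopologicalSpace N] [ChartedSpace (V n) N] (f : M → N) (x : M) : V k →L[ℝ] V n :=
  mfderiv (𝓡 k) (𝓡 n) f x

/-- the derivative of `f` at `x`, applied to the tangent vector `v` -/
noncomputable def dd (k n : ℕ) {M N : Type*} [TopologicalSpace M] [ChartedSpace (V k) M]
    [TopologicalSpace N] [ChartedSpace (V n) N] (f : M → N) (x : M) (v : V k) : V n :=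
  dL k n f x v

/-- the vector `a u + v` -/
noncomputable def lc {n : ℕ} (a : ℝ) (u v : V n) : V n := a • u + v

variable {k b n : ℕ} {M B N : Type*} [TopologicalSpace M]
  [ChartedSpace (V k) M] [TopologicalSpace B] [ChartedSpace (V b) B] [TopologicalSpace N]
  [ChartedSpace (V n) N]

/-- the inverse of `Θ` -/
noncomputable def inv (Θ : PDiff k b n M B N) (z : N) : M × B := Θ.toEquiv.symm z

/-- the vector field on `N` which is in the coordinates `Θ : M × B → N` the field `(X, 0)` -/
noncomputable def fibreVF (Θ : PDiff k b n M B N) (X : M → V k) (z : N) : V n :=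
  dd k n (fun x => Θ.pt x (inv Θ z).2) (inv Θ z).1 (X (inv Θ z).1)

/-- the vector field on `N` which is in the coordinates `Θ : M × B → N` the field `(0, Y)` -/
noncomputable def baseVF (Θ : PDiff k b n M B N) (Y : B → V b) (z : N) : V n :=
  dd b n (fun y => Θ.pt (inv Θ z).1 y) (inv Θ z).2 (Y (inv Θ z).2)

/-- the vector field on `N` which is in the coordinates `Θ : M × B → N` the field
`(x, y) ↦ (c(y) X(x), Y(y))` -/
noncomputable def skewVF (Θ : PDiff k b n M B N) (c : B → ℝ) (X : M → V k) (Y : B → V b)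
    (z : N) : V n :=
  lc (c (inv Θ z).2) (fibreVF Θ X z) (baseVF Θ Y z)

/-- The maps `(x, y) ↦ (φ_(c(y) + ε)(x), h(y))` are, in the coordinates `Θ`, diffeomorphisms of `N`; for
all `ε` in a residual set of real numbers the following holds: if `φ` and the numbers
`∫ c d(m j) + ε` satisfy `FinSigns`, then this diffeomorphism has finitely many attractors covering
`N`. -/
def ShiftsFinite [MeasurableSpace M] [MeasurableSpace B] [MeasurableSpace N] {r : ℕ∞}
    (Θ : PDiff k b n M B N) (μM : Measure M) (μ : Measure N) (φ : ℝ → M → M) (h : DiffM b B r)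
    (c : B → ℝ) {p : ℕ} (m : Fin p → Measure B) : Prop :=
  (∀ ε : ℝ, ∃ G : DiffM n N r, IsFlowSkew Θ φ h (fun y => c y + ε) G) ∧
  ∀ᶠ ε in residual ℝ, ∀ G : DiffM n N r, IsFlowSkew Θ φ h (fun y => c y + ε) G →
    FinSigns μM φ (fun j => (∫ y, c y ∂(m j)) + ε) → FiniteAttractors μ G

/-- `Z` and `W` are `C^r` vector fields, the fields `Z + ε W` have flows, and for all `ε` in a residual
set of real numbers with `P ε` the flow of `Z + ε W` has finitely many attractors covering `N`. -/
def LineFinite (n : ℕ) (N : Type*) [TopologicalSpace N] [ChartedSpace (V n) N]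
    [IsManifold (𝓡 n) ∞ N] [MeasurableSpace N] (r : ℕ∞) (μ : Measure N)
    (Z W : N → V n) (P : ℝ → Prop) : Prop :=
  IsVF n N r Z ∧ IsVF n N r W ∧ ∃ Ψ : ℝ → ℝ → N → N,
    (∀ ε : ℝ, IsFlowOf n (fun z => lc ε (W z) (Z z)) (Ψ ε)) ∧
    ∀ᶠ ε in residual ℝ, P ε → FiniteAttractorsF μ (Ψ ε)

/-- `ShiftsFinite` holds for all maps `(x, y) ↦ (φ_(c(y))(x), h(y))` which are in the coordinates `Θ`
diffeomorphisms `F` of `N`, with a `C^r` flow `φ`, a continuous function `c`, and `h` with finitely many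
physical measures -/
def ShiftsAll [MeasurableSpace M] [MeasurableSpace B] [MeasurableSpace N] (r : ℕ∞)
    (Θ : PDiff k b n M B N) (μM : Measure M) (μB : Measure B) (μ : Measure N) : Prop :=
  ∀ (φ : ℝ → M → M) (h : DiffM b B r) (c : B → ℝ) (F : DiffM n N r) (p : ℕ)
    (m : Fin p → Measure B), IsFlowSkew Θ φ h c F → IsPhysical μB h m → ShiftsFinite Θ μM μ φ h c m

/-- `Z = (c X, Y)` and `W = (X, 0)` satisfy `LineFinite`, with the condition `FinSigns` for the numbers
`∫ c d(m j) + ε` -/
def VFLine [MeasurableSpace M] [MeasurableSpace B] [MeasurableSpace N] [IsManifold (𝓡 n) ∞ N]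
    (r : ℕ∞) (Θ : PDiff k b n M B N) (μM : Measure M) (μ : Measure N) (X : M → V k) (Y : B → V b)
    (c : B → ℝ) (φ : ℝ → M → M) {p : ℕ} (m : Fin p → Measure B) : Prop :=
  LineFinite n N r μ (skewVF Θ c X Y) (fibreVF Θ X)
    (fun ε => FinSigns μM φ (fun j => (∫ y, c y ∂(m j)) + ε))

/-- `VFLine` holds for all `C^r` vector fields `X`, `Y` and functions `c`, where `φ` is the flow of `X`
and the flow of `Y` has finitely many physical measures `m j` -/
def LinesAll [MeasurableSpace M] [MeasurableSpace B] [MeasurableSpace N] [IsManifold (𝓡 k) ∞ M]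
    [IsManifold (𝓡 b) ∞ B] [IsManifold (𝓡 n) ∞ N] (r : ℕ∞) (Θ : PDiff k b n M B N)
    (μM : Measure M) (μB : Measure B) (μ : Measure N) : Prop :=
  ∀ (X : M → V k) (Y : B → V b) (c : B → ℝ)
    (φ : ℝ → M → M) (g : ℝ → B → B) (τ : ℝ) (p : ℕ) (m : Fin p → Measure B),
    IsVF k M r X → IsVF b B r Y → ContMDiff (𝓡 b) 𝓘(ℝ, ℝ) r c → IsFlowOf k X φ → IsFlowOf b Y g →
    IsPhysicalF μB g τ m → VFLine r Θ μM μ X Y c φ m

end Run7.h491.FS
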