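import Pool.Agent.Run7.h491.FS.Main
import Pool.Agent.Run7.h491.FS.VDefs

/-!
# Skew product vector fields
-/

set_option autoImplicit false
set_option linter.unusedSectionVars false

open scoped Manifold ContDiff Topology
open Filter Set MeasureTheory TopologicalSpace Bundle

universe u v w

namespace Run7.h491.FS

open Pool.Agent.H718R2.G
open Pool.Agent.N15.EQ (FlowOn omegaF IsAttractorF FiniteAttractorsF)
open Run7.h619.AA (PDiff)

variable {k b n : ℕ} {M : Type v} {B : Type u} {N : Type w} [TopologicalSpace M]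
  [ChartedSpace (V k) M] [TopologicalSpace B] [ChartedSpace (V b) B] [TopologicalSpace N]
  [ChartedSpace (V n) N] [IsManifold (𝓡 k) ∞ M] [IsManifold (𝓡 b) ∞ B] [IsManifold (𝓡 n) ∞ N]
  {r : ℕ∞} {Θ : PDiff k b n M B N}
  {X : M → V k} {Y : B → V b} {c : B → ℝ}

/-- the derivative of `Θ` -/
noncomputable def dΘ (Θ : PDiff k b n M B N) (q : M × B) : V k × V b →L[ℝ] V n :=
  mfderiv ((𝓡 k).prod (𝓡 b)) (𝓡 n) Θ q

theorem fibreVF_eq (z : N) : fibreVF Θ X z = dΘ Θ (Θ.symm z) (X (Θ.symm z).1, 0) := by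
  obtain ⟨q, hq⟩ : ∃ q, q = Θ.symm z := ⟨_, rfl⟩
  have hq' : inv Θ z = q := hq.symm
  unfold fibreVF dd dL
  rw [hq', ← hq]
  have h4 : HasMFDerivAt ((𝓡 k).prod (𝓡 b)) (𝓡 n) Θ (q.1, q.2)
      (mfderiv ((𝓡 k).prod (𝓡 b)) (𝓡 n) Θ (q.1, q.2)) :=
    (Θ.contMDiff.mdifferentiable (by simp) _).hasMFDerivAt
  have h5 : HasMFDerivAt (𝓡 k) ((𝓡 k).prod (𝓡 b)) (fun x : M => (x, q.2)) q.1
      ((ContinuousLinearMap.id ℝ (TangentSpace (𝓡 k) q.1)).prod 0) :=
    (hasMFDerivAt_id q.1).prodMk (hasMFDerivAt_const q.2 q.1)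
  have h6 := (h4.comp q.1 h5).mfderiv
  have h7 := congrArg (fun L : V k →L[ℝ] V n => L (X q.1)) h6
  exact h7

theorem baseVF_eq (z : N) : baseVF Θ Y z = dΘ Θ (Θ.symm z) (0, Y (Θ.symm z).2) := by
  obtain ⟨q, hq⟩ : ∃ q, q = Θ.symm z := ⟨_, rfl⟩
  have hq' : inv Θ z = q := hq.symm
  unfold baseVF dd dL
  rw [hq', ← hq]
  have h4 : HasMFDerivAt ((𝓡 k).prod (𝓡 b)) (𝓡 n) Θ (q.1, q.2)
      (mfderiv ((𝓡 k).prod (𝓡 b)) (𝓡 n) Θ (q.1, q.2)) :=
    (Θ.contMDiff.mdifferentiable (by simp) _).hasMFDerivAt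
  have h5 : HasMFDerivAt (𝓡 b) ((𝓡 k).prod (𝓡 b)) (fun y : B => (q.1, y)) q.2
      (ContinuousLinearMap.prod 0 (ContinuousLinearMap.id ℝ (TangentSpace (𝓡 b) q.2))) :=
    (hasMFDerivAt_const q.1 q.2).prodMk (hasMFDerivAt_id q.2)
  have h6 := (h4.comp q.2 h5).mfderiv
  have h7 := congrArg (fun L : V b →L[ℝ] V n => L (Y q.2)) h6
  exact h7

theorem skewVF_eq (z : N) : skewVF Θ c X Y z =
    dΘ Θ (Θ.symm z) (c (Θ.symm z).2 • X (Θ.symm z).1, Y (Θ.symm z).2) := by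
  unfold skewVF lc
  have hq' : inv Θ z = Θ.symm z := rfl
  rw [fibreVF_eq, baseVF_eq, ← map_smul, ← map_add, hq']
  congr 1
  simp

theorem sec_smooth {A : M × B → V k × V b}
    (hA : ContMDiff ((𝓡 k).prod (𝓡 b)) ((𝓡 k).prod (𝓡 b)).tangent r
      (fun p : M × B => (⟨p, A p⟩ : TangentBundle ((𝓡 k).prod (𝓡 b)) (M × B)))) :
    IsVF n N r (fun z => dΘ Θ (Θ.symm z) (A (Θ.symm z))) := by
  have h1 : ContMDiff ((𝓡 k).prod (𝓡 b)).tangent (𝓡 n).tangent r
      (tangentMap ((𝓡 k).prod (𝓡 b)) (𝓡 n) Θ) :=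
    Θ.contMDiff.contMDiff_tangentMap (by exact_mod_cast le_top)
  have h2 : ContMDiff (𝓡 n) ((𝓡 k).prod (𝓡 b)) r Θ.symm :=
    Θ.symm.contMDiff.of_le (by exact_mod_cast le_top)
  have h3 := h1.comp (hA.comp h2)
  unfold IsVF
  convert h3 using 1
  funext z
  refine Bundle.TotalSpace.ext (Θ.apply_symm_apply z).symm ?_
  exact HEq.rfl

theorem smooth1 (hX : IsVF k M r X) : IsVF n N r (fibreVF Θ X) := by
  have h1 : ContMDiff ((𝓡 k).prod (𝓡 b)) ((𝓡 k).prod (𝓡 b)).tangent r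
      (fun p : M × B => (⟨p, ((X p.1 : V k), (0 : V b))⟩ :
        TangentBundle ((𝓡 k).prod (𝓡 b)) (M × B))) := by
    have h2 : ContMDiff ((𝓡 k).prod (𝓡 b)) (𝓡 k).tangent r
        (fun p : M × B => (⟨p.1, X p.1⟩ : TangentBundle (𝓡 k) M)) := hX.comp contMDiff_fst
    have h3 : ContMDiff ((𝓡 k).prod (𝓡 b)) (𝓡 b).tangent r
        (fun p : M × B => (⟨p.2, 0⟩ : TangentBundle (𝓡 b) B)) :=
      (Bundle.contMDiff_zeroSection ℝ (TangentSpace (𝓡 b) : B → Type _)).comp contMDiff_snd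
    exact contMDiff_equivTangentBundleProd_symm.comp (h2.prodMk h3)
  have h4 := sec_smooth (Θ := Θ) h1
  convert h4 using 1
  funext z
  rw [fibreVF_eq]

theorem smooth2 (hY : IsVF b B r Y) : IsVF n N r (baseVF Θ Y) := by
  have h1 : ContMDiff ((𝓡 k).prod (𝓡 b)) ((𝓡 k).prod (𝓡 b)).tangent r
      (fun p : M × B => (⟨p, ((0 : V k), (Y p.2 : V b))⟩ :
        TangentBundle ((𝓡 k).prod (𝓡 b)) (M × B))) := by
    have h2 : ContMDiff ((𝓡 k).prod (𝓡 b)) (𝓡 b).tangent r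
        (fun p : M × B => (⟨p.2, Y p.2⟩ : TangentBundle (𝓡 b) B)) := hY.comp contMDiff_snd
    have h3 : ContMDiff ((𝓡 k).prod (𝓡 b)) (𝓡 k).tangent r
        (fun p : M × B => (⟨p.1, 0⟩ : TangentBundle (𝓡 k) M)) :=
      (Bundle.contMDiff_zeroSection ℝ (TangentSpace (𝓡 k) : M → Type _)).comp contMDiff_fst
    exact contMDiff_equivTangentBundleProd_symm.comp (h3.prodMk h2)
  have h4 := sec_smooth (Θ := Θ) h1
  convert h4 using 1
  funext z
  rw [baseVF_eq]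

theorem skewVF_smooth (hX : IsVF k M r X) (hY : IsVF b B r Y)
    (hc : ContMDiff (𝓡 b) 𝓘(ℝ, ℝ) r c) : IsVF n N r (skewVF Θ c X Y) := by
  have h2 : ContMDiff (𝓡 n) ((𝓡 k).prod (𝓡 b)) r Θ.symm :=
    Θ.symm.contMDiff.of_le (by exact_mod_cast le_top)
  have h3 : ContMDiff (𝓡 n) 𝓘(ℝ, ℝ) r (fun z : N => c (Θ.symm z).2) :=
    hc.comp (contMDiff_snd.comp h2)
  have h4 := ContMDiff.add_section (ContMDiff.smul_section h3 (smooth1 (Θ := Θ) hX))
    (smooth2 (Θ := Θ) hY)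
  unfold IsVF
  exact h4

theorem skewVF_add (ε : ℝ) :
    skewVF Θ (fun y => c y + ε) X Y = fun z => lc ε (fibreVF Θ X z) (skewVF Θ c X Y z) := by
  funext z
  unfold skewVF lc
  rw [add_smul]
  abel

/-- a reparametrized integral curve -/
theorem curve_comp {γ : ℝ → M} (hγ : IsMIntegralCurve (I := 𝓡 k) γ X) {s : ℝ → ℝ} {s' t : ℝ}
    (hs : HasDerivAt s s' t) : HasMFDerivAt 𝓘(ℝ, ℝ) (𝓡 k) (fun t => γ (s t)) t
      ((1 : ℝ →L[ℝ] ℝ).smulRight (s' • X (γ (s t)))) := by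
  have h1 : HasMFDerivAt 𝓘(ℝ, ℝ) 𝓘(ℝ, ℝ) s t ((1 : ℝ →L[ℝ] ℝ).smulRight s') :=
    hs.hasFDerivAt.hasMFDerivAt
  have h2 := (hγ (s t)).comp t h1
  have e : ((1 : ℝ →L[ℝ] ℝ).smulRight (s' • (X (γ (s t)) : V k))) =
      (((1 : ℝ →L[ℝ] ℝ).smulRight (X (γ (s t)) : V k))).comp ((1 : ℝ →L[ℝ] ℝ).smulRight s') := by
    refine ContinuousLinearMap.ext fun a => ?_
    simp [smul_smul, mul_comm]
  exact (congrArg (fun L : ℝ →L[ℝ] V k => HasMFDerivAt 𝓘(ℝ, ℝ) (𝓡 k) (fun t => γ (s t)) t L) e).mpr h2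

theorem curve_skN {φ : ℝ → M → M} {g : ℝ → B → B} {C : ℝ → B → ℝ}
    (hX : ∀ x, IsMIntegralCurve (I := 𝓡 k) (fun t => φ t x) X)
    (hY : ∀ y, IsMIntegralCurve (I := 𝓡 b) (fun t => g t y) Y)
    (hC : ∀ t y, HasDerivAt (fun t => C t y) (c (g t y)) t) (ε : ℝ) (z : N) :
    IsMIntegralCurve (I := 𝓡 n) (fun t => skN Θ φ g C ε t z)
      (fun z => lc ε (fibreVF Θ X z) (skewVF Θ c X Y z)) := by
  rw [← skewVF_add]
  intro t
  obtain ⟨x, hx⟩ : ∃ x, x = (Θ.symm z).1 := ⟨_, rfl⟩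
  obtain ⟨y, hy⟩ : ∃ y, y = (Θ.symm z).2 := ⟨_, rfl⟩
  have h0 : HasDerivAt (fun t => C t y + ε * t) (c (g t y) + ε) t := by
    have h5 : HasDerivAt (fun t : ℝ => ε * t) ε t := by
      simpa using (hasDerivAt_id t).const_mul ε
    exact (hC t y).add h5
  have h1 := curve_comp (hX x) h0
  have h2 := hY y t
  have h3 := h1.prodMk h2
  have h4 : HasMFDerivAt ((𝓡 k).prod (𝓡 b)) (𝓡 n) Θ (φ (C t y + ε * t) x, g t y)
      (mfderiv ((𝓡 k).prod (𝓡 b)) (𝓡 n) Θ (φ (C t y + ε * t) x, g t y)) :=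
    (Θ.contMDiff.mdifferentiable (by simp) _).hasMFDerivAt
  have h5 := h4.comp t h3
  have e1 : ∀ (L : V k × V b →L[ℝ] V n) (a : V k) (d : V b),
      L.comp (((1 : ℝ →L[ℝ] ℝ).smulRight a).prod ((1 : ℝ →L[ℝ] ℝ).smulRight d)) =
        (1 : ℝ →L[ℝ] ℝ).smulRight (L (a, d)) := by
    intro L a d
    refine ContinuousLinearMap.ext fun s => ?_
    simp only [ContinuousLinearMap.comp_apply, ContinuousLinearMap.prod_apply,
      ContinuousLinearMap.smulRight_apply]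
    rw [← map_smul]
    rfl
  have e2 : skewVF Θ (fun y => c y + ε) X Y (skN Θ φ g C ε t z) =
      dΘ Θ (φ (C t y + ε * t) x, g t y)
        ((c (g t y) + ε) • X (φ (C t y + ε * t) x), Y (g t y)) := by
    have e3 : Θ.symm (skN Θ φ g C ε t z) = (φ (C t y + ε * t) x, g t y) := by
      rw [hx, hy]
      exact Θ.symm_apply_apply _
    rw [skewVF_eq]
    have e4 : ∀ q q' : M × B, q = q' → (dΘ Θ q ((c q.2 + ε) • (X q.1 : V k), (Y q.2 : V b))) =
        dΘ Θ q' ((c q'.2 + ε) • (X q'.1 : V k), (Y q'.2 : V b)) := by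
      rintro q _ rfl
      rfl
    exact e4 _ _ e3
  have e5 : (fun t => skN Θ φ g C ε t z) = Θ ∘ fun t => (φ (C t y + ε * t) x, g t y) := by
    rw [hx, hy]
    rfl
  have e6 : (1 : ℝ →L[ℝ] ℝ).smulRight (skewVF Θ (fun y => c y + ε) X Y (skN Θ φ g C ε t z) : V n) =
      (dΘ Θ (φ (C t y + ε * t) x, g t y)).comp
      (((1 : ℝ →L[ℝ] ℝ).smulRight ((c (g t y) + ε) • (X (φ (C t y + ε * t) x) : V k))).prod
        ((1 : ℝ →L[ℝ] ℝ).smulRight (Y (g t y) : V b))) := by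
    exact (congrArg (fun v : V n => (1 : ℝ →L[ℝ] ℝ).smulRight v) e2).trans (e1 _ _ _).symm
  have h6 : HasMFDerivAt 𝓘(ℝ, ℝ) (𝓡 n) (fun t => skN Θ φ g C ε t z) t
      ((dΘ Θ (φ (C t y + ε * t) x, g t y)).comp
      (((1 : ℝ →L[ℝ] ℝ).smulRight ((c (g t y) + ε) • (X (φ (C t y + ε * t) x) : V k))).prod
        ((1 : ℝ →L[ℝ] ℝ).smulRight (Y (g t y) : V b)))) := by
    rw [e5]
    exact h5
  exact (congrArg (fun L : ℝ →L[ℝ] V n =>
    HasMFDerivAt 𝓘(ℝ, ℝ) (𝓡 n) (fun t => skN Θ φ g C ε t z) t L) e6).mpr h6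

section cocycle

variable {B : Type u} [TopologicalSpace B] [T2Space B] [CompactSpace B] [SecondCountableTopology B]
  {g : ℝ → B → B} {c : B → ℝ}

theorem C_cont (hg : FlowOn B g) (hc : Continuous c) :
    Continuous fun q : ℝ × B => ∫ s in (0 : ℝ)..q.1, c (g s q.2) := by
  refine intervalIntegral.continuous_parametric_intervalIntegral_of_continuous
    (f := fun (q : ℝ × B) s => c (g s q.2)) ?_ continuous_fst
  have h1 : Continuous fun q : (ℝ × B) × ℝ => ((q.2, q.1.2) : ℝ × B) := by fun_prop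
  exact hc.comp (hg.cont.comp h1)

theorem cg_cont (hg : FlowOn B g) (hc : Continuous c) (y : B) : Continuous fun s => c (g s y) :=
  hc.comp (hg.cont.comp (continuous_id.prodMk continuous_const))

theorem C_coc (hg : FlowOn B g) (hc : Continuous c) :
    IsCocycle g (fun t y => ∫ s in (0 : ℝ)..t, c (g s y)) where
  cont := C_cont hg hc
  add s t y := by
    have h1 : (∫ u in (0 : ℝ)..s, c (g u (g t y))) = ∫ u in t..(s + t), c (g u y) := by
      have h2 := intervalIntegral.integral_comp_add_right (a := 0) (b := s)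
        (fun u => c (g u y)) t
      rw [zero_add] at h2
      rw [← h2]
      simp only [hg.add]
    have h3 : (∫ u in (0 : ℝ)..t, c (g u y)) + (∫ u in t..(s + t), c (g u y)) =
        ∫ u in (0 : ℝ)..(s + t), c (g u y) :=
      intervalIntegral.integral_add_adjacent_intervals
        ((cg_cont hg hc y).intervalIntegrable (μ := volume) _ _)
        ((cg_cont hg hc y).intervalIntegrable (μ := volume) _ _)
    rw [h1, ← h3, add_comm]

theorem C_deriv (hg : FlowOn B g) (hc : Continuous c) (t : ℝ) (y : B) :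
    HasDerivAt (fun t => ∫ s in (0 : ℝ)..t, c (g s y)) (c (g t y)) t :=
  intervalIntegral.integral_hasDerivAt_right ((cg_cont hg hc y).intervalIntegrable _ _)
    (cg_cont hg hc y).aestronglyMeasurable.stronglyMeasurableAtFilter
    (cg_cont hg hc y).continuousAt

theorem C_int [MeasurableSpace B] [BorelSpace B] (hg : FlowOn B g) (hc : Continuous c) {τ : ℝ}
    (hτ : 0 < τ) {m : Measure B} [IsProbabilityMeasure m]
    (hinv : ∀ t, MeasurePreserving (g t) m m) :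
    ∫ y, (∫ s in (0 : ℝ)..τ, c (g s y)) ∂m = τ * ∫ y, c y ∂m := by
  simp only [intervalIntegral.integral_of_le hτ.le]
  obtain ⟨K, hK⟩ := isCompact_univ.exists_bound_of_continuousOn (f := c) hc.continuousOn
  have h1 : Continuous fun q : B × ℝ => c (g q.2 q.1) :=
    hc.comp (hg.cont.comp (by fun_prop : Continuous fun q : B × ℝ => ((q.2, q.1) : ℝ × B)))
  have h2 : Integrable (Function.uncurry fun y s => c (g s y))
      (m.prod (volume.restrict (Ioc 0 τ))) :=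
    Integrable.of_bound h1.aestronglyMeasurable K (Eventually.of_forall fun q => hK _ (mem_univ _))
  rw [integral_integral_swap h2]
  have h3 : ∀ s, ∫ y, c (g s y) ∂m = ∫ y, c y ∂m := by
    intro s
    have h4 := integral_map (hinv s).measurable.aemeasurable (μ := m) (f := c)
      hc.aestronglyMeasurable
    rw [(hinv s).map_eq] at h4
    exact h4.symm
  simp only [h3]
  rw [setIntegral_const]
  simp [hτ.le]

end cocycle

variable [T2Space M] [CompactSpace M] [T2Space B] [CompactSpace B]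
  [MeasurableSpace M] [MeasurableSpace B] [BorelSpace B] [MeasurableSpace N]

theorem skN_flowOn {φ : ℝ → M → M} {g : ℝ → B → B} {C : ℝ → B → ℝ} (hφ : FlowOn M φ)
    (hg : FlowOn B g) (hC : IsCocycle g C) (ε : ℝ) : FlowOn N (skN Θ φ g C ε) := by
  have : SecondCountableTopology M := ChartedSpace.secondCountable_of_sigmaCompact (V k) M
  have : SecondCountableTopology B := ChartedSpace.secondCountable_of_sigmaCompact (V b) B
  have hfl := skF_flow hφ hg hC ε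
  refine ⟨?_, fun z => ?_, fun s t z => ?_⟩
  · have h1 : Continuous fun q : ℝ × N => ((q.1, Θ.symm q.2) : ℝ × M × B) :=
      continuous_fst.prodMk (Θ.symm.continuous.comp continuous_snd)
    exact Θ.continuous.comp (hfl.cont.comp h1)
  · have h1 := hfl.zero (Θ.symm z)
    show Θ (skF φ g C ε 0 (Θ.symm z)) = z
    rw [h1]
    exact Θ.apply_symm_apply z
  · have h1 := hfl.add s t (Θ.symm z)
    show Θ (skF φ g C ε (s + t) (Θ.symm z)) = Θ (skF φ g C ε s (Θ.symm (Θ (skF φ g C ε t (Θ.symm z)))))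
    rw [h1, Θ.symm_apply_apply]

theorem FinSigns.scale {μM : Measure M} {φ : ℝ → M → M} {p : ℕ} {a a' : Fin p → ℝ} {τ : ℝ}
    (hτ : 0 < τ) (he : ∀ j, a' j = τ * a j) (h : FinSigns μM φ a) : FinSigns μM φ a' := by
  refine ⟨fun ⟨j, hj⟩ => h.1 ⟨j, ?_⟩, fun ⟨j, hj⟩ => h.2 ⟨j, ?_⟩⟩
  · rw [he] at hj
    exact (mul_pos_iff_of_pos_left hτ).1 hj
  · rw [he] at hj
    by_contra hcon
    exact absurd (mul_nonneg hτ.le (not_lt.1 hcon)) (not_le.2 hj)

theorem mainVF (μM : Measure M) [SFinite μM] (μB : Measure B) [SFinite μB] (μ : Measure N)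
    (hμ : ACProd Θ μM μB μ) (hX : IsVF k M r X) (hY : IsVF b B r Y)
    (hc : ContMDiff (𝓡 b) 𝓘(ℝ, ℝ) r c) {φ : ℝ → M → M} {g : ℝ → B → B} (hφ : IsFlowOf k X φ)
    (hg : IsFlowOf b Y g) {τ : ℝ} {p : ℕ} {m : Fin p → Measure B} (H : IsPhysicalF μB g τ m) :
    VFLine r Θ μM μ X Y c φ m := by
  have : SecondCountableTopology M := ChartedSpace.secondCountable_of_sigmaCompact (V k) M
  have : SecondCountableTopology B := ChartedSpace.secondCountable_of_sigmaCompact (V b) B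
  have hcc : Continuous c := hc.continuous
  have hcoc := C_coc hg.flow hcc
  refine ⟨skewVF_smooth hX hY hc, smooth1 hX,
    skN Θ φ g (fun t y => ∫ s in (0 : ℝ)..t, c (g s y)), fun ε => ⟨skN_flowOn hφ.flow hg.flow hcoc ε,
      fun z => curve_skN hφ.curve hg.curve (C_deriv hg.flow hcc) ε z⟩, ?_⟩
  have hprob := H.prob
  filter_upwards [finite_genF μM μB hg.flow hcoc H hφ.flow Θ.toHomeomorph μ hμ] with ε hε hs
  refine hε (hs.scale H.pos fun j => ?_)
  rw [C_int hg.flow hcc H.pos (H.inv j)]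
  ring

theorem mainShifts {F : DiffM n N r} {h : DiffM b B r} [CompactSpace N] [T2Space N]
    (μM : Measure M) [SFinite μM] (μB : Measure B) [SFinite μB] (μ : Measure N)
    (hμ : ACProd Θ μM μB μ) {φ : ℝ → M → M} {p : ℕ} {m : Fin p → Measure B}
    (hF : IsFlowSkew Θ φ h c F) (H : IsPhysical μB h m) : ShiftsFinite Θ μM μ φ h c m :=
  ⟨fun ε => ⟨_, shift_skew hF ε⟩, main1 μM μB μ hμ hF H⟩

end Run7.h491.FS
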